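import Mathlib

/-! # Convex combinations of a bounded sequence in a Hilbert space converge -/

set_option autoImplicit false

open Filter Topology

namespace Pool.Agent.H39.EQ

section convex

/-- probability weights on `{n, n + 1, ...}` -/
structure Wt (n : ℕ) (w : ℕ →₀ ℝ) : Prop where
  nonneg : ∀ k, 0 ≤ w k
  tail : ∀ k, k < n → w k = 0
  one : Finsupp.linearCombination ℝ (fun _ : ℕ => (1 : ℝ)) w = 1

theorem Wt.mono {m n : ℕ} (h : m ≤ n) {w : ℕ →₀ ℝ} (hw : Wt n w) : Wt m w :=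
  ⟨hw.nonneg, fun k hk => hw.tail k (by omega), hw.one⟩

theorem Wt.single {n k : ℕ} (h : n ≤ k) : Wt n (Finsupp.single k 1) := by
  refine ⟨fun j => ?_, fun j hj => ?_, ?_⟩
  · rw [Finsupp.single_apply]; split_ifs <;> norm_num
  · rw [Finsupp.single_apply, if_neg (by omega)]
  · simp

theorem Wt.mid {n : ℕ} {w w' : ℕ →₀ ℝ} (h : Wt n w) (h' : Wt n w') :
    Wt n ((1 / 2 : ℝ) • (w + w')) := by
  refine ⟨fun k => ?_, fun k hk => ?_, ?_⟩
  · have h1 := h.nonneg k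
    have h2 := h'.nonneg k
    simp only [Finsupp.smul_apply, Finsupp.add_apply, smul_eq_mul]
    linarith
  · simp only [Finsupp.smul_apply, Finsupp.add_apply, smul_eq_mul, h.tail k hk, h'.tail k hk]
    norm_num
  · rw [map_smul, map_add, h.one, h'.one]
    norm_num

variable {X : Type*} [NormedAddCommGroup X] [InnerProductSpace ℝ X]

/-- the combination with the weights `w` -/
noncomputable def cmb (Y : ℕ → X) (w : ℕ →₀ ℝ) : X := Finsupp.linearCombination ℝ Y w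

theorem cmb_eq (Y : ℕ → X) (w : ℕ →₀ ℝ) : cmb Y w = ∑ k ∈ w.support, w k • Y k := by
  unfold cmb
  rw [Finsupp.linearCombination_apply]
  rfl

theorem Wt.sum {n : ℕ} {w : ℕ →₀ ℝ} (h : Wt n w) : ∑ k ∈ w.support, w k = 1 := by
  have := h.one
  rw [Finsupp.linearCombination_apply, Finsupp.sum] at this
  simpa using this

theorem norm_cmb_le {Y : ℕ → X} {C : ℝ} (hY : ∀ k, ‖Y k‖ ≤ C) {n : ℕ} {w : ℕ →₀ ℝ}
    (h : Wt n w) : ‖cmb Y w‖ ≤ C := by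
  rw [cmb_eq]
  calc ‖∑ k ∈ w.support, w k • Y k‖ ≤ ∑ k ∈ w.support, ‖w k • Y k‖ := norm_sum_le _ _
    _ ≤ ∑ k ∈ w.support, w k * C := by
        refine Finset.sum_le_sum fun k _ => ?_
        rw [norm_smul, Real.norm_of_nonneg (h.nonneg k)]
        exact mul_le_mul_of_nonneg_left (hY k) (h.nonneg k)
    _ = C := by rw [← Finset.sum_mul, h.sum, one_mul]

/-- the norms of the combinations -/
def NS (Y : ℕ → X) (n : ℕ) : Set ℝ := {r | ∃ w, Wt n w ∧ r = ‖cmb Y w‖}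

theorem NS_ne (Y : ℕ → X) (n : ℕ) : (NS Y n).Nonempty := ⟨_, _, Wt.single le_rfl, rfl⟩

theorem NS_bdd (Y : ℕ → X) (n : ℕ) : BddBelow (NS Y n) :=
  ⟨0, by rintro r ⟨w, _, rfl⟩; exact norm_nonneg _⟩

/-- convex combinations of the tails with small distance to a limit -/
theorem exists_cmb [CompleteSpace X] {Y : ℕ → X} {C : ℝ} (hY : ∀ k, ‖Y k‖ ≤ C) :
    ∃ (w : ℕ → (ℕ →₀ ℝ)) (y : X), ∀ n, Wt n (w n) ∧ ‖cmb Y (w n) - y‖ ≤ (1 / 2) ^ n := by
  classical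
  have hC : 0 ≤ C := (norm_nonneg _).trans (hY 0)
  set r : ℕ → ℝ := fun n => sInf (NS Y n) with hr
  have hr0 : ∀ n, 0 ≤ r n := fun n => le_csInf (NS_ne Y n) (by
    rintro s ⟨w, _, rfl⟩; exact norm_nonneg _)
  have hrC : ∀ n, r n ≤ C := fun n =>
    (csInf_le (NS_bdd Y n) ⟨_, Wt.single le_rfl, rfl⟩).trans (norm_cmb_le hY (Wt.single le_rfl))
  have hmono : Monotone r := by
    intro m n hmn
    refine csInf_le_csInf (NS_bdd Y m) (NS_ne Y n) ?_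
    rintro s ⟨w, hw, rfl⟩
    exact ⟨w, hw.mono hmn, rfl⟩
  have hex : ∀ n : ℕ, ∃ w, Wt n w ∧ ‖cmb Y w‖ < r n + 1 / ((n : ℝ) + 1) := by
    intro n
    obtain ⟨s, ⟨w, hw, rfl⟩, h2⟩ := exists_lt_of_csInf_lt (NS_ne Y n)
      (show sInf (NS Y n) < r n + 1 / ((n : ℝ) + 1) by
        have : (0 : ℝ) < 1 / ((n : ℝ) + 1) := by positivity
        linarith)
    exact ⟨w, hw, h2⟩
  choose v hv1 hv2 using hex
  -- the limit of the norms
  obtain ⟨ρ, hρ⟩ : ∃ ρ, Tendsto r atTop (𝓝 ρ) :=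
    ⟨_, tendsto_atTop_ciSup hmono ⟨C, by rintro _ ⟨n, rfl⟩; exact hrC n⟩⟩
  have key : ∀ m n : ℕ, m ≤ n → ‖cmb Y (v n) - cmb Y (v m)‖ ^ 2 ≤
      2 * (r n + 1 / ((n : ℝ) + 1)) ^ 2 + 2 * (r m + 1 / ((m : ℝ) + 1)) ^ 2 - 4 * r m ^ 2 := by
    intro m n hmn
    have h1 := (hv1 n).mono hmn
    have h2 := h1.mid (hv1 m)
    have h3 : r m ≤ ‖cmb Y ((1 / 2 : ℝ) • (v n + v m))‖ := csInf_le (NS_bdd Y m) ⟨_, h2, rfl⟩
    have e1 : cmb Y ((1 / 2 : ℝ) • (v n + v m)) = (1 / 2 : ℝ) • (cmb Y (v n) + cmb Y (v m)) := by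
      unfold cmb; rw [map_smul, map_add]
    rw [e1, norm_smul] at h3
    have h4 : 2 * r m ≤ ‖cmb Y (v n) + cmb Y (v m)‖ := by
      have : ‖(1 / 2 : ℝ)‖ = 1 / 2 := by norm_num
      rw [this] at h3; linarith
    have h5 := parallelogram_law_with_norm ℝ (cmb Y (v n)) (cmb Y (v m))
    have h6 := hv2 n
    have h7 := hv2 m
    have h8 : ‖cmb Y (v n)‖ ^ 2 ≤ (r n + 1 / ((n : ℝ) + 1)) ^ 2 :=
      pow_le_pow_left₀ (norm_nonneg _) h6.le 2
    have h9 : ‖cmb Y (v m)‖ ^ 2 ≤ (r m + 1 / ((m : ℝ) + 1)) ^ 2 :=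
      pow_le_pow_left₀ (norm_nonneg _) h7.le 2
    have h10 : (2 * r m) ^ 2 ≤ ‖cmb Y (v n) + cmb Y (v m)‖ ^ 2 :=
      pow_le_pow_left₀ (by have := hr0 m; linarith) h4 2
    nlinarith
  have hs : Tendsto (fun n : ℕ => r n + 1 / ((n : ℝ) + 1)) atTop (𝓝 ρ) := by
    have := hρ.add tendsto_one_div_add_atTop_nhds_zero_nat
    rwa [add_zero] at this
  have hcau : CauchySeq fun n => cmb Y (v n) := by
    rw [Metric.cauchySeq_iff']
    intro ε hε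
    have h1 : Tendsto (fun n : ℕ => (r n + 1 / ((n : ℝ) + 1)) ^ 2) atTop (𝓝 (ρ ^ 2)) := hs.pow 2
    have h2 : Tendsto (fun n : ℕ => r n ^ 2) atTop (𝓝 (ρ ^ 2)) := hρ.pow 2
    have hε2 : 0 < ε ^ 2 / 8 := by positivity
    obtain ⟨N1, hN1⟩ := (Metric.tendsto_atTop.1 h1) (ε ^ 2 / 8) hε2
    obtain ⟨N2, hN2⟩ := (Metric.tendsto_atTop.1 h2) (ε ^ 2 / 8) hε2
    refine ⟨max N1 N2, fun n hn => ?_⟩
    have a1 := hN1 n (le_trans (le_max_left _ _) hn)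
    have a2 := hN1 (max N1 N2) (le_max_left _ _)
    have a3 := hN2 (max N1 N2) (le_max_right _ _)
    rw [Real.dist_eq] at a1 a2 a3
    have a1' := (abs_lt.1 a1).2
    have a2' := (abs_lt.1 a2).2
    have a3' := (abs_lt.1 a3).1
    have h3 := key (max N1 N2) n hn
    have h4 : ‖cmb Y (v n) - cmb Y (v (max N1 N2))‖ ^ 2 < ε ^ 2 := by linarith
    rw [dist_eq_norm]
    exact lt_of_pow_lt_pow_left₀ 2 hε.le h4
  obtain ⟨y, hy⟩ := cauchySeq_tendsto_of_complete hcau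
  have hsub : ∀ n : ℕ, ∃ m, n ≤ m ∧ ‖cmb Y (v m) - y‖ ≤ (1 / 2) ^ n := by
    intro n
    obtain ⟨N, hN⟩ := (Metric.tendsto_atTop.1 hy) ((1 / 2) ^ n) (by positivity)
    refine ⟨max N n, le_max_right _ _, ?_⟩
    have := hN (max N n) (le_max_left _ _)
    rw [dist_eq_norm] at this
    exact this.le
  choose m hm1 hm2 using hsub
  exact ⟨fun n => v (m n), y, fun n => ⟨(hv1 (m n)).mono (hm1 n), hm2 n⟩⟩

end convex

end Pool.Agent.H39.EQ
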