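import Pool.Agent.H39.EQ.E1
import Pool.Graph.R_seed8.H5R2.NB.LIMB

/-! # Convex combinations of random operators converge almost surely -/

set_option autoImplicit false

open MeasureTheory Filter Topology
open scoped ENNReal NNReal InnerProductSpace

namespace Pool.Agent.H39.EQ

open Pool.Agent.H5R2.NB

/-- the combination with complex scalars -/
noncomputable def cmc {X : Type*} [AddCommGroup X] [Module ℂ X] (Y : ℕ → X) (w : ℕ →₀ ℝ) : X :=
  ∑ k ∈ w.support, ((w k : ℝ) : ℂ) • Y k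

theorem exists_cmc {X : Type*} [NormedAddCommGroup X] [InnerProductSpace ℂ X] [CompleteSpace X]
    {Y : ℕ → X} {C : ℝ} (hY : ∀ k, ‖Y k‖ ≤ C) :
    ∃ (w : ℕ → (ℕ →₀ ℝ)) (y : X), ∀ n, Wt n (w n) ∧ ‖cmc Y (w n) - y‖ ≤ (1 / 2) ^ n := by
  let _ : InnerProductSpace ℝ X := InnerProductSpace.rclikeToReal ℂ X
  obtain ⟨w, y, h⟩ := exists_cmb (X := X) hY
  refine ⟨w, y, fun n => ⟨(h n).1, ?_⟩⟩
  have h2 := (h n).2
  rw [cmb_eq] at h2
  exact h2

theorem norm_cmc_le {X : Type*} [NormedAddCommGroup X] [NormedSpace ℂ X]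
    {Y : ℕ → X} {C : ℝ} {n : ℕ} {w : ℕ →₀ ℝ} (h : Wt n w) (hY : ∀ k, n ≤ k → ‖Y k‖ ≤ C) :
    ‖cmc Y w‖ ≤ C := by
  unfold cmc
  calc ‖∑ k ∈ w.support, ((w k : ℝ) : ℂ) • Y k‖ ≤ ∑ k ∈ w.support, ‖((w k : ℝ) : ℂ) • Y k‖ :=
        norm_sum_le _ _
    _ ≤ ∑ k ∈ w.support, w k * C := by
        refine Finset.sum_le_sum fun k hk => ?_
        rw [norm_smul, Complex.norm_real, Real.norm_of_nonneg (h.nonneg k)]
        refine mul_le_mul_of_nonneg_left (hY k ?_) (h.nonneg k)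
        by_contra hc
        exact (Finsupp.mem_support_iff.1 hk) (h.tail k (by omega))
    _ = C := by rw [← Finset.sum_mul, h.sum, one_mul]

variable {d : ℕ}

/-- the combination of operators -/
noncomputable def cmo {Ω : Type} (T : ℕ → Ω → L2 (Site d) →L[ℂ] L2 (Site d)) (w : ℕ →₀ ℝ) (ω : Ω) :
    L2 (Site d) →L[ℂ] L2 (Site d) := cmc (fun k => T k ω) w

theorem cmo_apply {Ω : Type} (T : ℕ → Ω → L2 (Site d) →L[ℂ] L2 (Site d)) (w : ℕ →₀ ℝ) (ω : Ω)
    (x : L2 (Site d)) : cmo T w ω x = cmc (fun k => T k ω x) w := by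
  unfold cmo cmc
  rw [sum_apply]
  rfl

theorem coe_cmc {Ω : Type} [MeasurableSpace Ω] {P : Measure Ω} {E : Type} [NormedAddCommGroup E]
    [NormedSpace ℂ E] (f : ℕ → Lp E 2 P) (w : ℕ →₀ ℝ) :
    ((cmc f w : Lp E 2 P) : Ω → E) =ᵐ[P] fun ω => cmc (fun k => f k ω) w := by
  classical
  unfold cmc
  induction w.support using Finset.induction_on with
  | empty => simp only [Finset.sum_empty]; exact Lp.coeFn_zero _ _ _
  | insert a s ha ih =>
    rw [Finset.sum_insert ha]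
    filter_upwards [Lp.coeFn_add (((w a : ℝ) : ℂ) • f a) (∑ k ∈ s, ((w k : ℝ) : ℂ) • f k), ih,
      Lp.coeFn_smul ((w a : ℝ) : ℂ) (f a)] with ω h1 h2 h3
    rw [h1, Pi.add_apply, h2, h3, Finset.sum_insert ha, Pi.smul_apply]

theorem ops_cmb {Ω : Type} [MeasurableSpace Ω] {P : Measure Ω} [IsProbabilityMeasure P]
    {T : ℕ → Ω → L2 (Site d) →L[ℂ] L2 (Site d)} {C : ℝ} (hC : 0 ≤ C)
    (hT : ∀ N ω x, ‖T N ω x‖ ≤ C * ‖x‖)
    (hm : ∀ N y, AEStronglyMeasurable (fun ω => T N ω (dl y)) P) :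
    ∃ w : ℕ → (ℕ →₀ ℝ), (∀ n, Wt n (w n)) ∧
      ∀ᵐ ω ∂P, ∃ B : L2 (Site d) →L[ℂ] L2 (Site d), ∀ x,
        Tendsto (fun n => cmo T (w n) ω x) atTop (𝓝 (B x)) := by
  classical
  have hdl : ∀ y : Site d, ‖(dl y : L2 (Site d))‖ = 1 := by
    intro y
    unfold dl
    rw [lp.norm_single (by norm_num)]
    simp
  have hTd : ∀ N ω y, ‖T N ω (dl y)‖ ≤ C := by
    intro N ω y
    have := hT N ω (dl y)
    rwa [hdl, mul_one] at this
  have hmem : ∀ N y, MemLp (fun ω => T N ω (dl y)) 2 P := fun N y =>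
    MemLp.of_bound (hm N y) C (ae_of_all _ fun ω => hTd N ω y)
  set f : ℕ → Site d → Lp (L2 (Site d)) 2 P := fun N y => (hmem N y).toLp with hf
  have hfn : ∀ N y, ‖f N y‖ ≤ C := by
    intro N y
    rw [hf]
    simp only
    rw [Lp.norm_toLp]
    refine ENNReal.toReal_le_of_le_ofReal hC ?_
    refine (eLpNorm_le_of_ae_bound (C := C) (ae_of_all _ fun ω => hTd N ω y)).trans ?_
    simp
  set c : Site d → ℝ := fun y => (1 / 2 : ℝ) ^ (Encodable.encode y) with hc
  have hcp : ∀ y, 0 < c y := fun y => by simp only [hc]; positivity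
  have hsum : Summable c := summable_geometric_two.comp_injective Encodable.encode_injective
  have hmemY : ∀ N, Memℓp (fun y : Site d => ((c y : ℝ) : ℂ) • f N y) 2 := by
    intro N
    apply memℓp_gen
    have h2 : (2 : ℝ≥0∞).toReal = 2 := by norm_num
    rw [h2]
    refine Summable.of_nonneg_of_le (fun y => by positivity) (fun y => ?_) (hsum.mul_right (C ^ 2))
    rw [norm_smul, Complex.norm_real, Real.norm_of_nonneg (hcp y).le]
    have h3 : c y * ‖f N y‖ ≤ c y * C := mul_le_mul_of_nonneg_left (hfn N y) (hcp y).le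
    have h4 : c y ≤ 1 := pow_le_one₀ (by norm_num) (by norm_num)
    rw [Real.rpow_two]
    calc (c y * ‖f N y‖) ^ 2 ≤ (c y * C) ^ 2 := pow_le_pow_left₀ (by positivity) h3 2
      _ = c y * (c y * C ^ 2) := by ring
      _ ≤ 1 * (c y * C ^ 2) := by
          apply mul_le_mul_of_nonneg_right h4
          have := (hcp y).le
          positivity
      _ = _ := by ring
  set Y : ℕ → lp (fun _ : Site d => Lp (L2 (Site d)) 2 P) 2 := fun N => ⟨_, hmemY N⟩ with hY
  have hYapp : ∀ N y, (Y N) y = ((c y : ℝ) : ℂ) • f N y := fun N y => rfl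
  obtain ⟨K, hK⟩ : ∃ K : ℝ, ∀ N, ‖Y N‖ ≤ K := by
    refine ⟨Real.sqrt (∑' y, c y * C ^ 2), fun N => ?_⟩
    have h2 : (2 : ℝ≥0∞).toReal = 2 := by norm_num
    have h1 : ‖Y N‖ ^ 2 = ∑' y, ‖(Y N) y‖ ^ 2 := by
      have := lp.norm_rpow_eq_tsum (p := 2) (by norm_num) (Y N)
      rw [h2] at this
      simpa using this
    apply Real.le_sqrt_of_sq_le
    rw [h1]
    have h5 : ∀ y, ‖(Y N) y‖ ^ 2 ≤ c y * C ^ 2 := by
      intro y
      rw [hYapp, norm_smul, Complex.norm_real, Real.norm_of_nonneg (hcp y).le]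
      have h3 : c y * ‖f N y‖ ≤ c y * C := mul_le_mul_of_nonneg_left (hfn N y) (hcp y).le
      have h4 : c y ≤ 1 := pow_le_one₀ (by norm_num) (by norm_num)
      calc (c y * ‖f N y‖) ^ 2 ≤ (c y * C) ^ 2 := pow_le_pow_left₀ (by
            have := (hcp y).le
            positivity) h3 2
        _ = c y * (c y * C ^ 2) := by ring
        _ ≤ 1 * (c y * C ^ 2) := by
            apply mul_le_mul_of_nonneg_right h4
            have := (hcp y).le
            positivity
        _ = _ := by ring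
    exact Summable.tsum_le_tsum h5 (Summable.of_nonneg_of_le (fun y => by positivity) h5
      (hsum.mul_right _)) (hsum.mul_right _)
  obtain ⟨w, z, hw⟩ := exists_cmc (X := lp (fun _ : Site d => Lp (L2 (Site d)) 2 P) 2) hK
  refine ⟨w, fun n => (hw n).1, ?_⟩
  -- almost sure convergence at every site
  have hconv : ∀ y : Site d, ∀ᵐ ω ∂P, ∃ l, Tendsto (fun n => cmo T (w n) ω (dl y)) atTop (𝓝 l) := by
    intro y
    set F : ℕ → Ω → L2 (Site d) := fun n ω => cmo T (w n) ω (dl y) with hF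
    set g : ℕ → Lp (L2 (Site d)) 2 P := fun n => cmc (fun k => f k y) (w n) with hg
    have hgF : ∀ n, (g n : Ω → L2 (Site d)) =ᵐ[P] F n := by
      intro n
      have h1 := coe_cmc (fun k => f k y) (w n)
      have h2 : ∀ᵐ ω ∂P, ∀ k, f k y ω = T k ω (dl y) := by
        rw [ae_all_iff]; intro k
        exact (hmem k y).coeFn_toLp
      filter_upwards [h1, h2] with ω h3 h4
      rw [h3]
      simp only [hF]
      rw [cmo_apply]
      simp only [h4]
    have hdist : ∀ n, ‖g n - ((c y : ℝ) : ℂ)⁻¹ • z y‖ ≤ (c y)⁻¹ * (1 / 2) ^ n := by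
      intro n
      have h1 : (cmc Y (w n) - z) y = ((c y : ℝ) : ℂ) • (g n - ((c y : ℝ) : ℂ)⁻¹ • z y) := by
        have hne : ((c y : ℝ) : ℂ) ≠ 0 := by
          exact_mod_cast (hcp y).ne'
        rw [smul_sub, smul_smul, mul_inv_cancel₀ hne, one_smul]
        show (cmc Y (w n)) y - z y = _
        congr 1
        simp only [hg]
        unfold cmc
        rw [lp.coeFn_sum, Finset.sum_apply, Finset.smul_sum]
        refine Finset.sum_congr rfl fun k _ => ?_
        rw [lp.coeFn_smul, Pi.smul_apply, hYapp, smul_comm]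
      have h2 := lp.norm_apply_le_norm (p := 2) (by norm_num) (cmc Y (w n) - z) y
      rw [h1, norm_smul, Complex.norm_real, Real.norm_of_nonneg (hcp y).le] at h2
      have h3 := h2.trans (hw n).2
      rw [inv_mul_eq_div, le_div_iff₀ (hcp y)]
      linarith
    have hFm : ∀ n, AEStronglyMeasurable (F n) P := fun n =>
      (Lp.aestronglyMeasurable (g n)).congr (hgF n)
    refine Lp.ae_tendsto_of_cauchy_eLpNorm (p := 2)
      (B := fun N => ENNReal.ofReal (3 * (c y)⁻¹ * (1 / 2) ^ N)) hFm (by norm_num) ?_ ?_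
    · rw [← ENNReal.ofReal_tsum_of_nonneg]
      · exact ENNReal.ofReal_ne_top
      · intro n
        have := (hcp y).le
        positivity
      · exact summable_geometric_two.mul_left _
    · intro N n m hn hm'
      have h1 : eLpNorm (F n - F m) 2 P = ENNReal.ofReal ‖g n - g m‖ := by
        rw [ofReal_norm, Lp.enorm_def]
        apply eLpNorm_congr_ae
        filter_upwards [hgF n, hgF m, Lp.coeFn_sub (g n) (g m)] with ω a1 a2 a3
        rw [a3, Pi.sub_apply, Pi.sub_apply, a1, a2]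
      rw [h1]
      apply (ENNReal.ofReal_lt_ofReal_iff _).2
      · have h2 : ‖g n - g m‖ ≤ (c y)⁻¹ * (1 / 2) ^ n + (c y)⁻¹ * (1 / 2) ^ m := by
          have e : g n - g m = (g n - ((c y : ℝ) : ℂ)⁻¹ • z y) - (g m - ((c y : ℝ) : ℂ)⁻¹ • z y) := by
            abel
          rw [e]
          exact (norm_sub_le _ _).trans (add_le_add (hdist n) (hdist m))
        have hci : 0 < (c y)⁻¹ := inv_pos.2 (hcp y)
        have h3 : (1 / 2 : ℝ) ^ n ≤ (1 / 2) ^ N := pow_le_pow_of_le_one (by norm_num) (by norm_num) hn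
        have h4 : (1 / 2 : ℝ) ^ m ≤ (1 / 2) ^ N := pow_le_pow_of_le_one (by norm_num) (by norm_num) hm'
        have h5 : 0 < (1 / 2 : ℝ) ^ N := by positivity
        have h6 : (c y)⁻¹ * (1 / 2) ^ n ≤ (c y)⁻¹ * (1 / 2) ^ N := mul_le_mul_of_nonneg_left h3 hci.le
        have h7 : (c y)⁻¹ * (1 / 2) ^ m ≤ (c y)⁻¹ * (1 / 2) ^ N := mul_le_mul_of_nonneg_left h4 hci.le
        have h8 : 0 < (c y)⁻¹ * (1 / 2) ^ N := mul_pos hci h5
        linarith
      · have hci : 0 < (c y)⁻¹ := inv_pos.2 (hcp y)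
        positivity
  have hall : ∀ᵐ ω ∂P, ∀ y : Site d, ∃ l, Tendsto (fun n => cmo T (w n) ω (dl y)) atTop (𝓝 l) :=
    ae_all_iff.2 hconv
  filter_upwards [hall] with ω hω
  have hb : ∀ n x, ‖cmo T (w n) ω x‖ ≤ C * ‖x‖ := by
    intro n x
    rw [cmo_apply]
    exact norm_cmc_le (hw n).1 fun k _ => hT k ω x
  obtain ⟨B, hB⟩ := LIMB.ext_lim (fun n => cmo T (w n) ω) (fun n => cmo T (w n) ω) C hC hb hb
    (Site d) dl (LIMB.dl_dense d) (fun y => by
      obtain ⟨l, hl⟩ := hω y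
      exact ⟨l, hl, hl⟩)
  exact ⟨B, fun x => (hB x).1⟩

end Pool.Agent.H39.EQ
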