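import Pool.Agent.H39.EQ.E2
import Pool.Agent.H39.AC.Tw9
import Pool.Graph.R_pool_sql_team_seeded_b0a926ef.R988.NQ.Fix
import Pool.Graph.R_seed8.H4R2.AE.Exist

/-! # Time averages at real times, multiplication operators, random operator fields -/

set_option autoImplicit false

open MeasureTheory Filter Topology
open scoped ENNReal NNReal InnerProductSpace ComplexConjugate

namespace Pool.Agent.H39.EQ

open Pool.Agent.H5R2.NB

section avg

variable {X : Type} [NormedAddCommGroup X] [InnerProductSpace ℂ X]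

theorem avg_norm (W : UG X) (v : X →L[ℂ] X) (T : ℝ) (x : X) :
    ‖((T : ℂ)⁻¹) • ∫ s in (0 : ℝ)..T, BP.g W v x s‖ ≤ ‖v‖ * ‖x‖ := by
  have h0 : 0 ≤ ‖v‖ * ‖x‖ := by positivity
  rw [norm_smul, norm_inv, Complex.norm_real, Real.norm_eq_abs]
  have h1 := BP.int_norm W v x 0 T
  rw [sub_zero] at h1
  rcases eq_or_ne T 0 with hT | hT
  · rw [hT]
    simp
    positivity
  · have hT' : 0 < |T| := abs_pos.2 hT
    rw [inv_mul_le_iff₀ hT', mul_comm |T|]
    exact h1

/-- the average over `[0, T]` as a bounded operator -/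
noncomputable def AT (W : UG X) (v : X →L[ℂ] X) (T : ℝ) : X →L[ℂ] X :=
  LinearMap.mkContinuous
    { toFun := fun x => ((T : ℂ)⁻¹) • ∫ s in (0 : ℝ)..T, BP.g W v x s
      map_add' := fun x y => by
        rw [← smul_add, ← intervalIntegral.integral_add
          ((BP.g_cont W v x).intervalIntegrable _ _) ((BP.g_cont W v y).intervalIntegrable _ _)]
        unfold BP.g
        simp only [map_add]
      map_smul' := fun a x => by
        unfold BP.g
        simp only [map_smul, intervalIntegral.integral_smul, RingHom.id_apply]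
        rw [smul_comm] } ‖v‖
    fun x => avg_norm W v T x

theorem AT_apply (W : UG X) (v : X →L[ℂ] X) (T : ℝ) (x : X) :
    AT W v T x = ((T : ℂ)⁻¹) • ∫ s in (0 : ℝ)..T, W.U (-s) (v (W.U s x)) := rfl

theorem norm_AT (W : UG X) (v : X →L[ℂ] X) (T : ℝ) (x : X) : ‖AT W v T x‖ ≤ ‖v‖ * ‖x‖ :=
  avg_norm W v T x

theorem AT_shift [CompleteSpace X] (W : UG X) (v : X →L[ℂ] X) {T : ℝ} (hT : 0 < T) (x : X)
    (t : ℝ) : ‖AT W v T (W.U t x) - W.U t (AT W v T x)‖ ≤ T⁻¹ * (2 * (‖v‖ * ‖x‖ * |t|)) := by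
  have hi : ∀ a b : ℝ, IntervalIntegrable (BP.g W v x) volume a b :=
    fun a b => (BP.g_cont W v x).intervalIntegrable a b
  have h1 : AT W v T (W.U t x) = ((T : ℂ)⁻¹) • W.U t (∫ s in t..T + t, BP.g W v x s) := by
    rw [AT_apply]
    congr 1
    have e1 : ∫ s in (0 : ℝ)..T, W.U (-s) (v (W.U s (W.U t x))) =
        ∫ s in (0 : ℝ)..T, W.U t (BP.g W v x (s + t)) :=
      intervalIntegral.integral_congr fun s _ => BP.g_shift W v x t s
    rw [e1, intervalIntegral.integral_comp_add_right (fun s => W.U t (BP.g W v x s)) t, zero_add,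
      ContinuousLinearMap.intervalIntegral_comp_comm _ (hi _ _)]
  have h2 : W.U t (AT W v T x) = ((T : ℂ)⁻¹) • W.U t (∫ s in (0 : ℝ)..T, BP.g W v x s) := by
    rw [AT_apply, map_smul]
    rfl
  rw [h1, h2, ← smul_sub, ← map_sub, norm_smul, norm_inv, Complex.norm_real,
    Real.norm_of_nonneg hT.le, W.norm']
  refine mul_le_mul_of_nonneg_left ?_ (by positivity)
  have h3 : ∫ s in t..T + t, BP.g W v x s = (∫ s in t..(0 : ℝ), BP.g W v x s) +
      (∫ s in (0 : ℝ)..T, BP.g W v x s) + ∫ s in T..T + t, BP.g W v x s := by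
    rw [intervalIntegral.integral_add_adjacent_intervals (hi _ _) (hi _ _),
      intervalIntegral.integral_add_adjacent_intervals (hi _ _) (hi _ _)]
  have h4 : (∫ s in t..T + t, BP.g W v x s) - ∫ s in (0 : ℝ)..T, BP.g W v x s =
      (∫ s in t..(0 : ℝ), BP.g W v x s) + ∫ s in T..T + t, BP.g W v x s := by
    rw [h3]; abel
  rw [h4]
  have h5 := BP.int_norm W v x t 0
  have h6 := BP.int_norm W v x T (T + t)
  rw [zero_sub, abs_neg] at h5
  rw [add_sub_cancel_left] at h6
  refine (norm_add_le _ _).trans ?_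
  linarith

theorem AT_add (W : UG X) (v v' : X →L[ℂ] X) (T : ℝ) (x : X) :
    AT W (v + v') T x = AT W v T x + AT W v' T x := by
  rw [AT_apply, AT_apply, AT_apply, ← smul_add]
  congr 1
  have h := intervalIntegral.integral_add (μ := volume) (a := 0) (b := T)
    ((BP.g_cont W v x).intervalIntegrable _ _) ((BP.g_cont W v' x).intervalIntegrable _ _)
  refine Eq.trans ?_ h
  refine intervalIntegral.integral_congr fun s _ => ?_
  show W.U (-s) (v (W.U s x) + v' (W.U s x)) = W.U (-s) (v (W.U s x)) + W.U (-s) (v' (W.U s x))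
  rw [map_add]

theorem AT_smul (W : UG X) (v : X →L[ℂ] X) (c : ℂ) (T : ℝ) (x : X) :
    AT W (c • v) T x = c • AT W v T x := by
  rw [AT_apply, AT_apply, smul_comm c]
  congr 1
  have h := intervalIntegral.integral_smul (μ := volume) (a := 0) (b := T) c
    (fun s => W.U (-s) (v (W.U s x)))
  refine Eq.trans ?_ h
  refine intervalIntegral.integral_congr fun s _ => ?_
  show W.U (-s) (c • v (W.U s x)) = c • W.U (-s) (v (W.U s x))
  rw [map_smul]

theorem AT_sub (W : UG X) (v v' : X →L[ℂ] X) (T : ℝ) (x : X) :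
    AT W (v - v') T x = AT W v T x - AT W v' T x := by
  have e : v - v' = v + (-1 : ℂ) • v' := by
    rw [neg_one_smul, sub_eq_add_neg]
  rw [e, AT_add, AT_smul, neg_one_smul, sub_eq_add_neg]

theorem AT_id [CompleteSpace X] (W : UG X) {T : ℝ} (hT : T ≠ 0) (x : X) :
    AT W (ContinuousLinearMap.id ℂ X) T x = x := by
  rw [AT_apply]
  have e : ∀ s : ℝ, W.U (-s) ((ContinuousLinearMap.id ℂ X) (W.U s x)) = x := by
    intro s
    show W.U (-s) (W.U s x) = x
    rw [← W.add', neg_add_cancel, W.zero']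
  simp_rw [e]
  rw [intervalIntegral.integral_const, sub_zero]
  have e2 : T • x = (T : ℂ) • x := rfl
  rw [e2, smul_smul, inv_mul_cancel₀ (by exact_mod_cast hT), one_smul]

/-! ### convex combinations of convergent sequences -/

theorem cmc_add (f g : ℕ → X) (w : ℕ →₀ ℝ) :
    cmc (fun k => f k + g k) w = cmc f w + cmc g w := by
  unfold cmc
  rw [← Finset.sum_add_distrib]
  refine Finset.sum_congr rfl fun k _ => smul_add _ _ _

theorem cmc_smul (c : ℂ) (f : ℕ → X) (w : ℕ →₀ ℝ) :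
    cmc (fun k => c • f k) w = c • cmc f w := by
  unfold cmc
  rw [Finset.smul_sum]
  refine Finset.sum_congr rfl fun k _ => smul_comm _ _ _

theorem cmc_map {Y : Type*} [NormedAddCommGroup Y] [NormedSpace ℂ Y] (A : X →L[ℂ] Y) (f : ℕ → X)
    (w : ℕ →₀ ℝ) : cmc (fun k => A (f k)) w = A (cmc f w) := by
  unfold cmc
  rw [map_sum]
  refine Finset.sum_congr rfl fun k _ => ?_
  rw [map_smul]

theorem cmc_sub (f g : ℕ → X) (w : ℕ →₀ ℝ) :
    cmc (fun k => f k - g k) w = cmc f w - cmc g w := by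
  unfold cmc
  rw [← Finset.sum_sub_distrib]
  refine Finset.sum_congr rfl fun k _ => smul_sub _ _ _

theorem cmc_const {n : ℕ} {w : ℕ →₀ ℝ} (h : Wt n w) (x : X) : cmc (fun _ => x) w = x := by
  unfold cmc
  rw [← Finset.sum_smul, ← Complex.ofReal_sum, h.sum, Complex.ofReal_one, one_smul]

theorem cmc_sum {ι : Type*} (s : Finset ι) (f : ι → ℕ → X) (w : ℕ →₀ ℝ) :
    cmc (fun k => ∑ i ∈ s, f i k) w = ∑ i ∈ s, cmc (f i) w := by
  unfold cmc
  rw [Finset.sum_comm]
  refine Finset.sum_congr rfl fun k _ => ?_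
  rw [Finset.smul_sum]

theorem cmc_zero {f : ℕ → X} (hf : Tendsto f atTop (𝓝 0)) {w : ℕ → (ℕ →₀ ℝ)}
    (hw : ∀ n, Wt n (w n)) : Tendsto (fun n => cmc f (w n)) atTop (𝓝 0) := by
  rw [Metric.tendsto_atTop]
  intro ε hε
  obtain ⟨N, hN⟩ := (Metric.tendsto_atTop.1 hf) (ε / 2) (by positivity)
  refine ⟨N, fun n hn => ?_⟩
  rw [dist_zero_right]
  refine lt_of_le_of_lt (norm_cmc_le (hw n) fun k hk => ?_) (half_lt_self hε)
  have := hN k (hn.trans hk)
  rw [dist_zero_right] at this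
  exact this.le

theorem cmc_tendsto {f : ℕ → X} {y : X} (hf : Tendsto f atTop (𝓝 y)) {w : ℕ → (ℕ →₀ ℝ)}
    (hw : ∀ n, Wt n (w n)) : Tendsto (fun n => cmc f (w n)) atTop (𝓝 y) := by
  have h1 : Tendsto (fun k => f k - y) atTop (𝓝 0) := by
    have := hf.sub_const y
    rwa [sub_self] at this
  have h2 := (cmc_zero h1 hw).add_const y
  rw [zero_add] at h2
  refine h2.congr fun n => ?_
  rw [cmc_sub, cmc_const (hw n)]
  abel

end avg

section mul

variable {d : ℕ}

/-- bounded functions -/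
def Bd (m : Site d → ℂ) : Prop := ∃ C : ℝ, ∀ x, ‖m x‖ ≤ C

theorem Bd.add {m m' : Site d → ℂ} (h : Bd m) (h' : Bd m') : Bd fun x => m x + m' x := by
  obtain ⟨C, hC⟩ := h
  obtain ⟨C', hC'⟩ := h'
  exact ⟨C + C', fun x => (norm_add_le _ _).trans (add_le_add (hC x) (hC' x))⟩

theorem Bd.sub {m m' : Site d → ℂ} (h : Bd m) (h' : Bd m') : Bd fun x => m x - m' x := by
  obtain ⟨C, hC⟩ := h
  obtain ⟨C', hC'⟩ := h'
  exact ⟨C + C', fun x => (norm_sub_le _ _).trans (add_le_add (hC x) (hC' x))⟩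

theorem Bd.smul {m : Site d → ℂ} (h : Bd m) (c : ℂ) : Bd fun x => c * m x := by
  obtain ⟨C, hC⟩ := h
  refine ⟨‖c‖ * C, fun x => ?_⟩
  rw [norm_mul]
  exact mul_le_mul_of_nonneg_left (hC x) (norm_nonneg _)

theorem Bd.comp {m : Site d → ℂ} (h : Bd m) (α : Site d → Site d) : Bd fun x => m (α x) := by
  obtain ⟨C, hC⟩ := h
  exact ⟨C, fun x => hC _⟩

theorem Bd.const (c : ℂ) : Bd fun _ : Site d => c := ⟨‖c‖, fun _ => le_rfl⟩

theorem Bd.sum {ι : Type*} (s : Finset ι) (m : ι → Site d → ℂ) (h : ∀ i, Bd (m i)) :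
    Bd fun x => ∑ i ∈ s, m i x := by
  choose C hC using h
  exact ⟨∑ i ∈ s, C i, fun x => (norm_sum_le _ _).trans (Finset.sum_le_sum fun i _ => hC i x)⟩

theorem exists_fm {m : Site d → ℂ} (h : Bd m) :
    ∃ A : L2 (Site d) →L[ℂ] L2 (Site d), ∀ ψ x, (A ψ) x = m x * ψ x := by
  obtain ⟨C, hC⟩ := h
  have hC0 : 0 ≤ C := (norm_nonneg _).trans (hC 0)
  obtain ⟨A, hA⟩ := Pool.Agent.H4R2.AE.Exist.exists_op (fun x : Site d => x)
    Function.injective_id m C hC0 hC
  exact ⟨A, hA⟩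

/-- multiplication by a bounded function -/
noncomputable def fm (m : Site d → ℂ) (h : Bd m) : L2 (Site d) →L[ℂ] L2 (Site d) :=
  (exists_fm h).choose

theorem fm_apply (m : Site d → ℂ) (h : Bd m) (ψ : L2 (Site d)) (x : Site d) :
    (fm m h ψ) x = m x * ψ x := (exists_fm h).choose_spec ψ x

theorem fm_add {m m' : Site d → ℂ} (h : Bd m) (h' : Bd m') :
    fm (fun x => m x + m' x) (h.add h') = fm m h + fm m' h' := by
  refine ContinuousLinearMap.ext fun ψ => lp.ext (funext fun x => ?_)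
  show _ = (fm m h ψ + fm m' h' ψ : L2 (Site d)) x
  rw [lp.coeFn_add, Pi.add_apply, fm_apply, fm_apply, fm_apply, add_mul]

theorem fm_sub {m m' : Site d → ℂ} (h : Bd m) (h' : Bd m') :
    fm (fun x => m x - m' x) (h.sub h') = fm m h - fm m' h' := by
  refine ContinuousLinearMap.ext fun ψ => lp.ext (funext fun x => ?_)
  show _ = (fm m h ψ - fm m' h' ψ : L2 (Site d)) x
  rw [lp.coeFn_sub, Pi.sub_apply, fm_apply, fm_apply, fm_apply, sub_mul]

theorem fm_const (c : ℂ) : fm (fun _ : Site d => c) (Bd.const c) =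
    c • ContinuousLinearMap.id ℂ (L2 (Site d)) := by
  refine ContinuousLinearMap.ext fun ψ => lp.ext (funext fun x => ?_)
  show _ = (c • ψ : L2 (Site d)) x
  rw [lp.coeFn_smul, Pi.smul_apply, fm_apply, smul_eq_mul]

theorem fm_smul {m : Site d → ℂ} (h : Bd m) (c : ℂ) :
    fm (fun x => c * m x) (h.smul c) = c • fm m h := by
  refine ContinuousLinearMap.ext fun ψ => lp.ext (funext fun x => ?_)
  show _ = (c • fm m h ψ : L2 (Site d)) x
  rw [lp.coeFn_smul, Pi.smul_apply, fm_apply, fm_apply, smul_eq_mul, mul_assoc]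

theorem fm_sum {ι : Type*} (s : Finset ι) (m : ι → Site d → ℂ) (h : ∀ i, Bd (m i)) :
    fm (fun x => ∑ i ∈ s, m i x) (Bd.sum s m h) = ∑ i ∈ s, fm (m i) (h i) := by
  refine ContinuousLinearMap.ext fun ψ => lp.ext (funext fun x => ?_)
  rw [sum_apply, lp.coeFn_sum, Finset.sum_apply, fm_apply, Finset.sum_mul]
  refine Finset.sum_congr rfl fun i _ => ?_
  rw [fm_apply]

end mul

section fields

open Pool.Agent.R988.NQ

variable {d : ℕ} {c o : ℝ} {ev : (Site d → ℝ) → UG (L2 (Site d))}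

theorem sm_AT (hev : ∀ ω : Site d → ℝ, IsGrp c (fun x => o + ω x) (ev ω))
    (v : L2 (Site d) →L[ℂ] L2 (Site d)) (T : ℝ) (f : (Site d → ℝ) → L2 (Site d))
    (hf : StronglyMeasurable f) : StronglyMeasurable fun ω => AT (ev ω) v T (f ω) := by
  set shf : (Site d → ℝ) → Site d → ℝ := fun V x => V x - o with hshf
  have hev' : ∀ V, IsGrp c V (ev (shf V)) := by
    intro V
    have h := hev (shf V)
    have e : (fun x => o + shf V x) = V := by
      funext x
      simp only [hshf]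
      ring
    rwa [e] at h
  have h := ALL.a_CV d c (fun V => ev (shf V)) hev'
  have hco : Continuous fun (ω : Site d → ℝ) (x : Site d) => o + ω x := by fun_prop
  have hcc : Continuous fun p : (Site d → ℝ) × ℝ × L2 (Site d) => (ev p.1).U p.2.1 p.2.2 := by
    have h2 := h.comp ((hco.comp continuous_fst).prodMk
      (continuous_snd : Continuous fun p : (Site d → ℝ) × ℝ × L2 (Site d) => p.2))
    have e : (fun p : (Site d → ℝ) × ℝ × L2 (Site d) => (ev p.1).U p.2.1 p.2.2) =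
        (fun p : (Site d → ℝ) × ℝ × L2 (Site d) => (ev (shf p.1)).U p.2.1 p.2.2) ∘
          fun p : (Site d → ℝ) × ℝ × L2 (Site d) => ((fun x => o + p.1 x), p.2) := by
      funext p
      simp only [Function.comp, hshf]
      have e2 : (fun x => o + p.1 x - o) = p.1 := by
        funext x
        ring
      rw [e2]
    rw [e]
    exact h2
  have h1 : Continuous (fun p : ((Site d → ℝ) × L2 (Site d)) × ℝ =>
      (ev p.1.1).U p.2 p.1.2) :=
    hcc.comp (by fun_prop : Continuous fun p : ((Site d → ℝ) × L2 (Site d)) × ℝ =>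
      ((p.1.1, p.2, p.1.2) : (Site d → ℝ) × ℝ × L2 (Site d)))
  have h2 : Continuous (fun p : ((Site d → ℝ) × L2 (Site d)) × ℝ =>
      (ev p.1.1).U (-p.2) (v ((ev p.1.1).U p.2 p.1.2))) :=
    hcc.comp ((continuous_fst.comp continuous_fst).prodMk (continuous_snd.neg.prodMk
      (v.continuous.comp h1)))
  have h3 : Continuous fun p : (Site d → ℝ) × L2 (Site d) =>
      ∫ s in (0 : ℝ)..T, (ev p.1).U (-s) (v ((ev p.1).U s p.2)) :=
    intervalIntegral.continuous_parametric_intervalIntegral_of_continuous'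
      (f := fun (p : (Site d → ℝ) × L2 (Site d)) (s : ℝ) =>
        (ev p.1).U (-s) (v ((ev p.1).U s p.2))) h2 0 _
  have h4 : StronglyMeasurable fun V =>
      ∫ s in (0 : ℝ)..T, (ev V).U (-s) (v ((ev V).U s (f V))) :=
    h3.comp_stronglyMeasurable (stronglyMeasurable_id.prodMk hf)
  exact h4.const_smul ((T : ℂ)⁻¹)

theorem sm_cmo {T : ℕ → OF d} {f : (Site d → ℝ) → L2 (Site d)}
    (h : ∀ k, StronglyMeasurable fun ω => T k ω (f ω)) (w : ℕ →₀ ℝ) :
    StronglyMeasurable fun ω => cmo T w ω (f ω) := by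
  simp only [cmo_apply]
  unfold cmc
  refine Finset.stronglyMeasurable_fun_sum _ fun k _ => ?_
  exact (h k).const_smul ((w k : ℝ) : ℂ)

/-- columns determine measurability -/
theorem sm_app {Ω : Type} [MeasurableSpace Ω] {W : Ω → L2 (Site d) →L[ℂ] L2 (Site d)}
    (hm : ∀ y, StronglyMeasurable fun ω => W ω (dl y)) {f : Ω → L2 (Site d)}
    (hf : StronglyMeasurable f) : StronglyMeasurable fun ω => W ω (f ω) := by
  obtain ⟨F, hF⟩ := exhaust (d := d)
  refine stronglyMeasurable_of_tendsto (atTop : Filter ℕ) (f := fun n ω => W ω (pf (F n) (f ω)))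
    (fun n => ?_) (tendsto_pi_nhds.2 fun ω => ((W ω).continuous.tendsto _).comp
      (pf_tendsto hF (f ω)))
  simp only [pf_sum, map_sum, map_smul]
  refine Finset.stronglyMeasurable_fun_sum _ fun y _ => ?_
  have h1 : StronglyMeasurable fun ω => (f ω) y := by
    have e : ∀ ω, (f ω) y = ⟪(dl y : L2 (Site d)), f ω⟫_ℂ := fun ω => (STAT.inner_dl y _).symm
    simp only [e]
    exact stronglyMeasurable_const.inner hf
  exact h1.smul (hm y)

theorem aesm_app {Ω : Type} [MeasurableSpace Ω] {P : Measure Ω}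
    {W : Ω → L2 (Site d) →L[ℂ] L2 (Site d)}
    (hm : ∀ y, AEStronglyMeasurable (fun ω => W ω (dl y)) P) {f : Ω → L2 (Site d)}
    (hf : AEStronglyMeasurable f P) : AEStronglyMeasurable (fun ω => W ω (f ω)) P := by
  obtain ⟨F, hF⟩ := exhaust (d := d)
  refine aestronglyMeasurable_of_tendsto_ae (u := (atTop : Filter ℕ))
    (f := fun n ω => W ω (pf (F n) (f ω)))
    (fun n => ?_) (ae_of_all _ fun ω => ((W ω).continuous.tendsto _).comp
      (pf_tendsto hF (f ω)))
  simp only [pf_sum, map_sum, map_smul]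
  refine Finset.aestronglyMeasurable_fun_sum _ fun y _ => ?_
  have h1 : AEStronglyMeasurable (fun ω => (f ω) y) P := by
    have e : ∀ ω, (f ω) y = ⟪(dl y : L2 (Site d)), f ω⟫_ℂ := fun ω => (STAT.inner_dl y _).symm
    simp only [e]
    exact aestronglyMeasurable_const.inner hf
  exact h1.smul (hm y)

/-- a limit field which is measurable everywhere -/
theorem field_of_lim {S : ℕ → OF d} {C : ℝ} (hC : 0 ≤ C) (hS : ∀ n ω x, ‖S n ω x‖ ≤ C * ‖x‖)
    (hm : ∀ n y, StronglyMeasurable fun ω => S n ω (dl y)) {P : Measure (Site d → ℝ)}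
    (h : ∀ᵐ ω ∂P, ∃ B : L2 (Site d) →L[ℂ] L2 (Site d), ∀ x,
      Tendsto (fun n => S n ω x) atTop (𝓝 (B x))) :
    ∃ W : OF d, (∀ ω x, ‖W ω x‖ ≤ C * ‖x‖) ∧ (∀ y, StronglyMeasurable fun ω => W ω (dl y)) ∧
      ∀ᵐ ω ∂P, ∀ x, Tendsto (fun n => S n ω x) atTop (𝓝 (W ω x)) := by
  classical
  set G : Set (Site d → ℝ) := {ω | ∀ y, ∃ l, Tendsto (fun n => S n ω (dl y)) atTop (𝓝 l)} with hG
  have hGm : MeasurableSet G := by
    rw [hG, Set.ofPred_forall]
    exact MeasurableSet.iInter fun y =>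
      StronglyMeasurable.measurableSet_exists_tendsto fun n => hm n y
  have hex : ∀ ω, ω ∈ G → ∃ B : L2 (Site d) →L[ℂ] L2 (Site d), ∀ x,
      Tendsto (fun n => S n ω x) atTop (𝓝 (B x)) := by
    intro ω hω
    obtain ⟨B, hB⟩ := LIMB.ext_lim (fun n => S n ω) (fun n => S n ω) C hC
      (fun n x => hS n ω x) (fun n x => hS n ω x) (Site d) dl (LIMB.dl_dense d) (fun y => by
        obtain ⟨l, hl⟩ := hω y
        exact ⟨l, hl, hl⟩)
    exact ⟨B, fun x => (hB x).1⟩
  set W : OF d := fun ω => if h : ω ∈ G then (hex ω h).choose else 0 with hW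
  have hWt : ∀ ω, ω ∈ G → ∀ x, Tendsto (fun n => S n ω x) atTop (𝓝 (W ω x)) := by
    intro ω hω x
    simp only [hW, dif_pos hω]
    exact (hex ω hω).choose_spec x
  have hW0 : ∀ ω, ω ∉ G → W ω = 0 := by
    intro ω hω
    simp only [hW, dif_neg hω]
  refine ⟨W, fun ω x => ?_, fun y => ?_, ?_⟩
  · by_cases hω : ω ∈ G
    · exact le_of_tendsto (hWt ω hω x).norm (Eventually.of_forall fun n => hS n ω x)
    · rw [hW0 ω hω, zero_apply, norm_zero]
      positivity
  · refine stronglyMeasurable_of_tendsto (atTop : Filter ℕ)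
      (f := fun n => G.indicator fun ω => S n ω (dl y)) (fun n => (hm n y).indicator hGm)
      (tendsto_pi_nhds.2 fun ω => ?_)
    by_cases hω : ω ∈ G
    · have := hWt ω hω (dl y)
      refine this.congr fun n => ?_
      rw [Set.indicator_of_mem hω]
    · rw [hW0 ω hω, zero_apply]
      refine tendsto_const_nhds.congr fun n => ?_
      rw [Set.indicator_of_notMem hω]
  · filter_upwards [h] with ω ⟨B, hB⟩
    exact hWt ω fun y => ⟨_, hB (dl y)⟩

/-- from almost everywhere measurable to measurable -/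
theorem fix_meas {W : OF d} {C : ℝ} (hC : 0 ≤ C) (hW : ∀ ω x, ‖W ω x‖ ≤ C * ‖x‖)
    {P : Measure (Site d → ℝ)} (hm : ∀ y, AEStronglyMeasurable (fun ω => W ω (dl y)) P) :
    ∃ W' : OF d, (∀ ω x, ‖W' ω x‖ ≤ C * ‖x‖) ∧ (∀ y, StronglyMeasurable fun ω => W' ω (dl y)) ∧
      ∀ᵐ ω ∂P, W' ω = W ω := by
  classical
  have h1 : ∀ᵐ ω ∂P, ∀ y, W ω (dl y) = (hm y).mk _ ω := by
    rw [ae_all_iff]
    exact fun y => (hm y).ae_eq_mk
  obtain ⟨t, ht1, ht2, ht3⟩ := exists_measurable_superset_of_null (ae_iff.1 h1)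
  refine ⟨fun ω => if ω ∈ t then 0 else W ω, fun ω x => ?_, fun y => ?_, ?_⟩
  · by_cases hω : ω ∈ t
    · simp only [if_pos hω, zero_apply, norm_zero]
      positivity
    · simp only [if_neg hω]
      exact hW ω x
  · have e : (fun ω => (if ω ∈ t then (0 : L2 (Site d) →L[ℂ] L2 (Site d)) else W ω) (dl y)) =
        tᶜ.indicator ((hm y).mk _) := by
      funext ω
      by_cases hω : ω ∈ t
      · rw [if_pos hω, Set.indicator_of_notMem (by simpa using hω), zero_apply]
      · rw [if_neg hω, Set.indicator_of_mem (by simpa using hω)]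
        have h2 : ω ∉ {ω | ¬ ∀ y, W ω (dl y) = (hm y).mk _ ω} := fun h => hω (ht1 h)
        have h3 : ∀ y, W ω (dl y) = (hm y).mk _ ω := by
          by_contra hcon
          exact h2 hcon
        exact h3 y
    rw [e]
    exact (hm y).stronglyMeasurable_mk.indicator ht2.compl
  · have : ∀ᵐ ω ∂P, ω ∉ t := by
      rw [ae_iff]
      simpa using ht3
    filter_upwards [this] with ω hω
    rw [if_neg hω]

end fields

end Pool.Agent.H39.EQ
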