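import Pool.Agent.H39.EQ.E3

/-! # Thin functions average to zero on the absolutely continuous subspace -/

set_option autoImplicit false

open MeasureTheory Filter Topology
open scoped ENNReal NNReal InnerProductSpace ComplexConjugate

namespace Pool.Agent.H39.EQ

open Pool.Agent.H5R2 Pool.Agent.H5R2.NB Pool.Agent.H39.AC
open Pool.Agent.TH980.IM (HV HV_sa spm)
open Pool.Agent.R988.NQ (OF)

variable {d : ℕ}

/-- small off finitely many slabs -/
def Thin (h : Site d → ℂ) : Prop := ∀ ε : ℝ, 0 < ε →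
  ∃ L : List ((Fin d → ℝ) × ℝ × ℝ), (∀ p ∈ L, p.1 ≠ 0) ∧
    ∀ x, (∀ p ∈ L, x ∉ slab p.1 p.2.1 p.2.2) → ‖h x‖ ≤ ε

theorem Thin.add {h h' : Site d → ℂ} (H : Thin h) (H' : Thin h') : Thin fun x => h x + h' x := by
  intro ε hε
  obtain ⟨L, hL, hL2⟩ := H (ε / 2) (by positivity)
  obtain ⟨L', hL', hL2'⟩ := H' (ε / 2) (by positivity)
  refine ⟨L ++ L', fun p hp => ?_, fun x hx => ?_⟩
  · rcases List.mem_append.1 hp with h | h
    · exact hL p h
    · exact hL' p h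
  · have h1 := hL2 x fun p hp => hx p (List.mem_append.2 (Or.inl hp))
    have h2 := hL2' x fun p hp => hx p (List.mem_append.2 (Or.inr hp))
    exact (norm_add_le _ _).trans (by linarith)

theorem Thin.smul {h : Site d → ℂ} (H : Thin h) (c : ℂ) : Thin fun x => c * h x := by
  intro ε hε
  obtain ⟨L, hL, hL2⟩ := H (ε / (‖c‖ + 1)) (by positivity)
  refine ⟨L, hL, fun x hx => ?_⟩
  rw [norm_mul]
  have h1 := hL2 x hx
  rw [le_div_iff₀ (by positivity)] at h1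
  nlinarith [norm_nonneg (h x), norm_nonneg c]

theorem Thin.sub {h h' : Site d → ℂ} (H : Thin h) (H' : Thin h') : Thin fun x => h x - h' x := by
  have h1 := H.add (H'.smul (-1))
  have e : (fun x => h x - h' x) = fun x => h x + (-1) * h' x := by
    funext x
    ring
  rw [e]
  exact h1

theorem Thin.zero : Thin fun _ : Site d => 0 := fun ε hε =>
  ⟨[], fun p hp => absurd hp (by simp), fun x _ => by rw [norm_zero]; exact hε.le⟩

theorem Thin.sum {ι : Type*} (s : Finset ι) (m : ι → Site d → ℂ) (h : ∀ i, Thin (m i)) :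
    Thin fun x => ∑ i ∈ s, m i x := by
  classical
  induction s using Finset.induction_on with
  | empty =>
    simp only [Finset.sum_empty]
    exact Thin.zero
  | insert a s ha ih =>
    simp only [Finset.sum_insert ha]
    exact (h a).add ih

/-- the translate of a thin function is thin -/
theorem Thin.trans {h : Site d → ℂ} (H : Thin h) (a : Site d) : Thin fun x => h (x + a) := by
  intro ε hε
  obtain ⟨L, hL, hL2⟩ := H ε hε
  refine ⟨L.map fun p => (p.1, p.2.1 - ∑ i, p.1 i * (a i : ℝ), p.2.2), fun p hp => ?_,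
    fun x hx => ?_⟩
  · obtain ⟨q, hq, rfl⟩ := List.mem_map.1 hp
    exact hL q hq
  · refine hL2 _ fun p hp hs => ?_
    refine hx _ (List.mem_map.2 ⟨p, hp, rfl⟩) ?_
    show |∑ i, p.1 i * (x i : ℝ) - (p.2.1 - ∑ i, p.1 i * (a i : ℝ))| ≤ p.2.2
    have h1 : |∑ i, p.1 i * (((x + a) i : ℤ) : ℝ) - p.2.1| ≤ p.2.2 := hs
    have e : ∑ i, p.1 i * (((x + a) i : ℤ) : ℝ) =
        ∑ i, p.1 i * (x i : ℝ) + ∑ i, p.1 i * (a i : ℝ) := by
      rw [← Finset.sum_add_distrib]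
      refine Finset.sum_congr rfl fun i _ => ?_
      rw [Pi.add_apply, Int.cast_add]
      ring
    rw [e] at h1
    have e2 : ∑ i, p.1 i * (x i : ℝ) - (p.2.1 - ∑ i, p.1 i * (a i : ℝ)) =
        ∑ i, p.1 i * (x i : ℝ) + ∑ i, p.1 i * (a i : ℝ) - p.2.1 := by ring
    rw [e2]
    exact h1

/-- the squared norm of the product with a function which is small off some slabs -/
theorem fm_sq (h : Site d → ℂ) (hb : Bd h) {C ε : ℝ} (hC : ∀ x, ‖h x‖ ≤ C)
    (L : List ((Fin d → ℝ) × ℝ × ℝ))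
    (hL : ∀ x, (∀ p ∈ L, x ∉ slab p.1 p.2.1 p.2.2) → ‖h x‖ ≤ ε) (φ : L2 (Site d)) :
    ‖fm h hb φ‖ ^ 2 ≤ ε ^ 2 * ‖φ‖ ^ 2 +
      C ^ 2 * (L.map fun p => mass (slab p.1 p.2.1 p.2.2) φ).sum := by
  have hn : ∀ g : L2 (Site d), ‖g‖ ^ 2 = ∑' x, ‖g x‖ ^ 2 := by
    intro g
    have h2 : (2 : ℝ≥0∞).toReal = 2 := by norm_num
    have := lp.norm_rpow_eq_tsum (p := 2) (by norm_num) g
    rw [h2] at this
    simpa using this
  have hpt : ∀ x, ‖h x‖ ^ 2 ≤ ε ^ 2 + C ^ 2 *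
      (L.map fun p => (slab p.1 p.2.1 p.2.2).indicator (fun _ => (1 : ℝ)) x).sum := by
    intro x
    have h0 : ∀ L' : List ((Fin d → ℝ) × ℝ × ℝ),
        0 ≤ (L'.map fun p => (slab p.1 p.2.1 p.2.2).indicator (fun _ => (1 : ℝ)) x).sum := by
      intro L'
      refine List.sum_nonneg fun r hr => ?_
      obtain ⟨p, _, rfl⟩ := List.mem_map.1 hr
      exact Set.indicator_nonneg (fun _ _ => zero_le_one) _
    by_cases hx : ∀ p ∈ L, x ∉ slab p.1 p.2.1 p.2.2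
    · have h1 := hL x hx
      have h2 := pow_le_pow_left₀ (norm_nonneg _) h1 2
      have h3 := mul_nonneg (sq_nonneg C) (h0 L)
      linarith
    · push Not at hx
      obtain ⟨p, hp, hx⟩ := hx
      have h1 : 1 ≤ (L.map fun p => (slab p.1 p.2.1 p.2.2).indicator (fun _ => (1 : ℝ)) x).sum := by
        have h2 : (1 : ℝ) ∈ L.map fun p =>
            (slab p.1 p.2.1 p.2.2).indicator (fun _ => (1 : ℝ)) x :=
          List.mem_map.2 ⟨p, hp, Set.indicator_of_mem hx _⟩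
        refine List.single_le_sum (fun r hr => ?_) _ h2
        obtain ⟨q, _, rfl⟩ := List.mem_map.1 hr
        exact Set.indicator_nonneg (fun _ _ => zero_le_one) _
      have h2 := pow_le_pow_left₀ (norm_nonneg _) (hC x) 2
      nlinarith [sq_nonneg ε, sq_nonneg C]
  rw [hn (fm h hb φ), hn φ]
  have hms : ∀ p : (Fin d → ℝ) × ℝ × ℝ, Summable fun x =>
      (slab p.1 p.2.1 p.2.2).indicator (fun x => ‖φ x‖ ^ 2) x := fun p => (summ φ).indicator _
  have hlist : ∀ L' : List ((Fin d → ℝ) × ℝ × ℝ), HasSum (fun x =>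
      (L'.map fun p => (slab p.1 p.2.1 p.2.2).indicator (fun x => ‖φ x‖ ^ 2) x).sum)
      (L'.map fun p => mass (slab p.1 p.2.1 p.2.2) φ).sum := by
    intro L'
    induction L' with
    | nil => simp
    | cons p L' ih =>
      simp only [List.map_cons, List.sum_cons]
      exact (hms p).hasSum.add ih
  have hR : HasSum (fun x => ε ^ 2 * ‖φ x‖ ^ 2 + C ^ 2 *
      (L.map fun p => (slab p.1 p.2.1 p.2.2).indicator (fun x => ‖φ x‖ ^ 2) x).sum)
      (ε ^ 2 * (∑' x, ‖φ x‖ ^ 2) + C ^ 2 * (L.map fun p => mass (slab p.1 p.2.1 p.2.2) φ).sum) :=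
    ((summ φ).hasSum.mul_left _).add ((hlist L).mul_left _)
  refine (summ (fm h hb φ)).hasSum.tsum_eq ▸ hasSum_le (fun x => ?_) (summ (fm h hb φ)).hasSum hR
  rw [fm_apply, norm_mul, mul_pow]
  have h1 := mul_le_mul_of_nonneg_right (hpt x) (sq_nonneg ‖φ x‖)
  refine h1.trans (le_of_eq ?_)
  rw [add_mul, mul_assoc (C ^ 2)]
  congr 2
  rw [← List.sum_map_mul_right]
  congr 1
  refine List.map_congr_left fun p _ => ?_
  by_cases hx : x ∈ slab p.1 p.2.1 p.2.2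
  · rw [Set.indicator_of_mem hx, Set.indicator_of_mem hx, one_mul]
  · rw [Set.indicator_of_notMem hx, Set.indicator_of_notMem hx, zero_mul]

/-- a thin function averages to zero on `ψ` if `ψ` leaves all slabs -/
theorem thin_zero {h : Site d → ℂ} (H : Thin h) (hb : Bd h) (W : UG (L2 (Site d)))
    (ψ : L2 (Site d))
    (hs : ∀ ε : ℝ, 0 < ε → ∃ L : List ((Fin d → ℝ) × ℝ × ℝ),
      (∀ x, (∀ p ∈ L, x ∉ slab p.1 p.2.1 p.2.2) → ‖h x‖ ≤ ε) ∧
      ∀ p ∈ L, Tendsto (fun T : ℝ => T⁻¹ * ∫ s in (0 : ℝ)..T,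
        mass (slab p.1 p.2.1 p.2.2) (W.U s ψ)) atTop (𝓝 0)) :
    Tendsto (fun T : ℝ => AT W (fm h hb) T ψ) atTop (𝓝 0) := by
  obtain ⟨C, hC⟩ := hb
  rw [Metric.tendsto_atTop]
  intro δ' hδ'
  set δ : ℝ := δ' / 3 with hδd
  have hδ : 0 < δ := by positivity
  set ε : ℝ := δ / (‖ψ‖ + 1) with hεd
  have hε : 0 < ε := by positivity
  obtain ⟨L, hL1, hL2⟩ := hs ε hε
  have hlim : Tendsto (fun T : ℝ => (L.map fun p => T⁻¹ * ∫ s in (0 : ℝ)..T,
      mass (slab p.1 p.2.1 p.2.2) (W.U s ψ)).sum) atTop (𝓝 0) := by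
    clear hL1
    induction L with
    | nil => simp
    | cons p L ih =>
      simp only [List.map_cons, List.sum_cons]
      have h1 := (hL2 p (by simp)).add (ih fun q hq => hL2 q (by simp [hq]))
      rwa [add_zero] at h1
  have hlim2 := hlim.const_mul (C ^ 2)
  rw [mul_zero] at hlim2
  have hev : ∀ᶠ T : ℝ in atTop, ‖AT W (fm h ⟨C, hC⟩) T ψ‖ < δ' := by
    filter_upwards [hlim2.eventually (gt_mem_nhds (show (0 : ℝ) < δ ^ 2 / 2 by positivity)),
      eventually_gt_atTop (0 : ℝ)] with T hT hT0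
    have hcm : ∀ p : (Fin d → ℝ) × ℝ × ℝ, Continuous fun s =>
        mass (slab p.1 p.2.1 p.2.2) (W.U s ψ) := fun p => cont_mass W _ ψ
    have hcl : ∀ L' : List ((Fin d → ℝ) × ℝ × ℝ), Continuous fun s =>
        (L'.map fun p => mass (slab p.1 p.2.1 p.2.2) (W.U s ψ)).sum := by
      intro L'
      induction L' with
      | nil => simpa using continuous_const
      | cons p L' ih =>
        simp only [List.map_cons, List.sum_cons]
        exact (hcm p).add ih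
    have hil : ∀ L' : List ((Fin d → ℝ) × ℝ × ℝ),
        ∫ s in (0 : ℝ)..T, (L'.map fun p => mass (slab p.1 p.2.1 p.2.2) (W.U s ψ)).sum =
        (L'.map fun p => ∫ s in (0 : ℝ)..T, mass (slab p.1 p.2.1 p.2.2) (W.U s ψ)).sum := by
      intro L'
      induction L' with
      | nil => simp
      | cons p L' ih =>
        simp only [List.map_cons, List.sum_cons]
        rw [intervalIntegral.integral_add ((hcm p).intervalIntegrable _ _)
          ((hcl L').intervalIntegrable _ _), ih]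
    have hpt : ∀ s : ℝ, ‖W.U (-s) (fm h ⟨C, hC⟩ (W.U s ψ))‖ ≤ δ + δ⁻¹ * (ε ^ 2 * ‖ψ‖ ^ 2 +
        C ^ 2 * (L.map fun p => mass (slab p.1 p.2.1 p.2.2) (W.U s ψ)).sum) := by
      intro s
      rw [W.norm']
      have h1 := fm_sq h ⟨C, hC⟩ hC L hL1 (W.U s ψ)
      rw [W.norm'] at h1
      set a := ‖fm h ⟨C, hC⟩ (W.U s ψ)‖
      have ha : 0 ≤ a := norm_nonneg _
      have h2 : a ≤ δ + δ⁻¹ * a ^ 2 := by
        rcases le_total a δ with h3 | h3
        · have : 0 ≤ δ⁻¹ * a ^ 2 := by positivity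
          linarith
        · have h4 : a ≤ δ⁻¹ * a ^ 2 := by
            rw [inv_mul_eq_div, le_div_iff₀ hδ]
            nlinarith
          linarith
      exact h2.trans (by gcongr)
    have h3 : ‖∫ s in (0 : ℝ)..T, W.U (-s) (fm h ⟨C, hC⟩ (W.U s ψ))‖ ≤
        ∫ s in (0 : ℝ)..T, (δ + δ⁻¹ * (ε ^ 2 * ‖ψ‖ ^ 2 +
        C ^ 2 * (L.map fun p => mass (slab p.1 p.2.1 p.2.2) (W.U s ψ)).sum)) := by
      refine intervalIntegral.norm_integral_le_of_norm_le hT0.le (ae_of_all _ fun s _ => hpt s) ?_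
      refine Continuous.intervalIntegrable ?_ _ _
      have := hcl L
      fun_prop
    have h4 : ∫ s in (0 : ℝ)..T, (δ + δ⁻¹ * (ε ^ 2 * ‖ψ‖ ^ 2 +
        C ^ 2 * (L.map fun p => mass (slab p.1 p.2.1 p.2.2) (W.U s ψ)).sum)) =
        T * (δ + δ⁻¹ * (ε ^ 2 * ‖ψ‖ ^ 2)) + δ⁻¹ * (C ^ 2 * ∫ s in (0 : ℝ)..T,
          (L.map fun p => mass (slab p.1 p.2.1 p.2.2) (W.U s ψ)).sum) := by
      have e : ∀ s : ℝ, (δ + δ⁻¹ * (ε ^ 2 * ‖ψ‖ ^ 2 +
        C ^ 2 * (L.map fun p => mass (slab p.1 p.2.1 p.2.2) (W.U s ψ)).sum)) =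
        (δ + δ⁻¹ * (ε ^ 2 * ‖ψ‖ ^ 2)) + (δ⁻¹ * C ^ 2) *
          (L.map fun p => mass (slab p.1 p.2.1 p.2.2) (W.U s ψ)).sum := by
        intro s
        ring
      simp_rw [e]
      rw [intervalIntegral.integral_add intervalIntegrable_const
        (((hcl L).const_mul _).intervalIntegrable _ _), intervalIntegral.integral_const,
        intervalIntegral.integral_const_mul, sub_zero, smul_eq_mul]
      ring
    rw [AT_apply, norm_smul, norm_inv, Complex.norm_real, Real.norm_of_nonneg hT0.le]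
    have h5 : T⁻¹ * ‖∫ s in (0 : ℝ)..T, W.U (-s) (fm h ⟨C, hC⟩ (W.U s ψ))‖ ≤
        (δ + δ⁻¹ * (ε ^ 2 * ‖ψ‖ ^ 2)) + δ⁻¹ * (C ^ 2 * (L.map fun p => T⁻¹ *
          ∫ s in (0 : ℝ)..T, mass (slab p.1 p.2.1 p.2.2) (W.U s ψ)).sum) := by
      have h6 := mul_le_mul_of_nonneg_left (h3.trans (le_of_eq h4)) (inv_nonneg.2 hT0.le)
      refine h6.trans (le_of_eq ?_)
      rw [hil L, List.sum_map_mul_left]
      field_simp
    have h7 : δ⁻¹ * (ε ^ 2 * ‖ψ‖ ^ 2) ≤ δ := by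
      rw [inv_mul_le_iff₀ hδ, ← mul_pow, ← sq]
      have h8 : ε * ‖ψ‖ ≤ δ := by
        rw [hεd, div_mul_eq_mul_div, div_le_iff₀ (by positivity)]
        nlinarith [norm_nonneg ψ]
      exact pow_le_pow_left₀ (by positivity) h8 2
    have h9 : δ⁻¹ * (C ^ 2 * (L.map fun p => T⁻¹ *
          ∫ s in (0 : ℝ)..T, mass (slab p.1 p.2.1 p.2.2) (W.U s ψ)).sum) < δ := by
      rw [inv_mul_lt_iff₀ hδ, ← sq]
      nlinarith [sq_nonneg δ, pow_pos hδ 2]
    have h10 : δ' = (δ + δ) + δ := by rw [hδd]; ring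
    rw [h10]
    exact lt_of_le_of_lt h5 (add_lt_add_of_le_of_lt (add_le_add le_rfl h7) h9)
  obtain ⟨T0, hT0⟩ := eventually_atTop.1 hev
  exact ⟨T0, fun T hT => by rw [dist_zero_right]; exact hT0 T hT⟩

variable {K : ℝ} {ν : Measure ℝ} [IsProbabilityMeasure ν] {ev : (Site d → ℝ) → UG (L2 (Site d))}

theorem slab_as (hd : 1 ≤ d) (hK : ∀ᵐ r ∂ν, |r| ≤ K) (hν : ∀ r : ℝ, ν {r} ≠ 1)
    (hev : ∀ ω : Site d → ℝ, IsGrp (-1) (fun x => 2 * d + ω x) (ev ω)) {n : Fin d → ℝ}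
    (hn : n ≠ 0) :
    ∀ᵐ ω ∂(PP d ν), ∀ ψ, spm (HV_sa K ω) ψ ≪ volume → ∀ c R : ℝ,
      Tendsto (fun T : ℝ => T⁻¹ * ∫ s in (0 : ℝ)..T, mass (slab n c R) ((ev ω).U s ψ)) atTop
        (𝓝 0) := by
  obtain ⟨i0, hi0⟩ : ∃ i0, n i0 ≠ 0 := by
    by_contra hcon
    push Not at hcon
    exact hn (funext hcon)
  have hA : ∀ᵐ ω ∂(PP d ν), ∀ (R M : ℕ) (k : ℤ), k ≠ 0 → |k| ≤ M → ∀ ψ,
      spm (HV_sa K ω) ψ ≪ volume → Van (ev ω) ψ (fun i => (k : ℝ) * AC.tau n i0 R M * n i) := by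
    rw [ae_all_iff]
    intro R
    rw [ae_all_iff]
    intro M
    rw [ae_all_iff]
    intro k
    by_cases hk : k ≠ 0 ∧ |k| ≤ M
    · have := tw_all hd hK hν hev (chr_tch (fun i => (k : ℝ) * AC.tau n i0 R M * n i))
        (tau_phase n i0 hi0 R M k hk.1 hk.2)
      filter_upwards [this] with ω hω _ _ ψ hψ
      exact hω ψ hψ
    · exact ae_of_all _ fun ω h1 h2 => absurd ⟨h1, h2⟩ hk
  filter_upwards [hA] with ω h1 ψ h3 c R
  rw [Metric.tendsto_atTop]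
  intro ε hε
  have h4 := slabs (ev ω) ψ n i0 ⌈R⌉₊ (fun M k hk hkM => h1 ⌈R⌉₊ M k hk hkM ψ h3) (ε / 2)
    (by positivity)
  obtain ⟨T0, hT0⟩ := eventually_atTop.1 (h4.and (eventually_gt_atTop (0 : ℝ)))
  refine ⟨T0, fun T hT => ?_⟩
  obtain ⟨h5, h6⟩ := hT0 T hT
  have h0 : ∀ s : ℝ, 0 ≤ mass (slab n c R) ((ev ω).U s ψ) := fun s =>
    tsum_nonneg fun x => Set.indicator_nonneg (fun _ _ => sq_nonneg _) _
  rw [dist_zero_right, Real.norm_of_nonneg (mul_nonneg (inv_nonneg.2 h6.le)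
    (intervalIntegral.integral_nonneg h6.le fun s _ => h0 s))]
  refine lt_of_le_of_lt ?_ (half_lt_self hε)
  refine le_trans ?_ (h5 c)
  refine mul_le_mul_of_nonneg_left ?_ (inv_nonneg.2 h6.le)
  refine intervalIntegral.integral_mono_on h6.le
    ((cont_mass (ev ω) _ ψ).intervalIntegrable _ _)
    ((cont_mass (ev ω) _ ψ).intervalIntegrable _ _) fun s _ => ?_
  refine mass_mono (fun x hx => ?_) _
  have hx' : |∑ i, n i * (x i : ℝ) - c| ≤ R := hx
  exact hx'.trans (Nat.le_ceil R)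

/-- thin functions average to zero on the absolutely continuous subspace, almost surely -/
theorem thin_as (hd : 1 ≤ d) (hK : ∀ᵐ r ∂ν, |r| ≤ K) (hν : ∀ r : ℝ, ν {r} ≠ 1)
    (hev : ∀ ω : Site d → ℝ, IsGrp (-1) (fun x => 2 * d + ω x) (ev ω)) {h : Site d → ℂ}
    (H : Thin h) (hb : Bd h) :
    ∀ᵐ ω ∂(PP d ν), ∀ ψ, spm (HV_sa K ω) ψ ≪ volume →
      Tendsto (fun T : ℝ => AT (ev ω) (fm h hb) T ψ) atTop (𝓝 0) := by
  choose L hL1 hL2 using fun k : ℕ => H (1 / ((k : ℝ) + 1)) (by positivity)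
  have h1 : ∀ᵐ ω ∂(PP d ν), ∀ (k : ℕ) (j : Fin (L k).length), ∀ ψ,
      spm (HV_sa K ω) ψ ≪ volume → ∀ c R : ℝ,
      Tendsto (fun T : ℝ => T⁻¹ * ∫ s in (0 : ℝ)..T,
        mass (slab ((L k).get j).1 c R) ((ev ω).U s ψ)) atTop (𝓝 0) := by
    rw [ae_all_iff]
    intro k
    rw [ae_all_iff]
    intro j
    exact slab_as hd hK hν hev (hL1 k _ (List.get_mem _ _))
  filter_upwards [h1] with ω hω ψ hψ
  refine thin_zero H hb (ev ω) ψ fun ε hε => ?_
  obtain ⟨k, hk⟩ := exists_nat_one_div_lt hε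
  refine ⟨L k, fun x hx => (hL2 k x hx).trans hk.le, fun p hp => ?_⟩
  obtain ⟨j, rfl⟩ := List.get_of_mem hp
  exact hω k j ψ hψ _ _

end Pool.Agent.H39.EQ
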