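import Pool.Agent.H39.EQ.E4
import Pool.Graph.R_seed8.Y662.ERG.Acp

/-! # Averages of slowly varying functions are functions of the Hamiltonian -/

set_option autoImplicit false

open MeasureTheory Filter Topology
open scoped ENNReal NNReal InnerProductSpace ComplexConjugate

namespace Pool.Agent.H39.EQ

open Pool.Agent.H5R2 Pool.Agent.H5R2.NB Pool.Agent.H39.AC
open Pool.Agent.TH980.IM (HV HV_sa spm)
open Pool.Agent.Y662.ERG
open Pool.Agent.R988.NQ (OF fix_cov main_gen)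

variable {d : ℕ}

/-- maps of the lattice preserving the sum over the neighbours -/
def Aut (α : Site d → Site d) : Prop := ∀ (ψ : Site d → ℂ) (x : Site d),
  ∑ i : Fin d, (ψ (α (x + Pi.single i 1)) + ψ (α (x - Pi.single i 1))) =
    ∑ i : Fin d, (ψ (α x + Pi.single i 1) + ψ (α x - Pi.single i 1))

theorem aut_shift (z : Site d) : Aut fun x : Site d => x + z := by
  intro ψ x
  refine Finset.sum_congr rfl fun i _ => ?_
  have e1 : x + Pi.single i 1 + z = x + z + Pi.single i 1 := by abel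
  have e2 : x - Pi.single i 1 + z = x + z - Pi.single i 1 := by abel
  show ψ (x + Pi.single i 1 + z) + ψ (x - Pi.single i 1 + z) = _
  rw [e1, e2]

theorem U_aut {α : Site d → Site d} (hα : Aut α) {R : L2 (Site d) →L[ℂ] L2 (Site d)}
    (hR : ∀ ψ x, (R ψ) x = ψ (α x)) {c : ℝ} {V V' : Site d → ℝ} {W W' : UG (L2 (Site d))}
    (hW : IsGrp c V W) (hW' : IsGrp c V' W') (hV : ∀ x, V' x = V (α x)) (t : ℝ)
    (ψ : L2 (Site d)) : W'.U t (R ψ) = R (W.U t ψ) := by
  have hsol : IsSol c V' (fun t => R (W.U t ψ)) (fun _ => 0) := by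
    refine ⟨fun T => ⟨‖R‖ * ‖ψ‖, fun t _ => ?_⟩, fun t x => ?_⟩
    · refine (R.le_opNorm _).trans ?_
      rw [W.norm']
    · have h1 := (hW ψ).2 t (α x)
      have e1 : (fun s => (R (W.U s ψ)) x) = fun s => (W.U s ψ) (α x) := by
        funext s
        rw [hR]
      show HasDerivAt (fun s => (R (W.U s ψ)) x) _ t
      rw [e1]
      refine h1.congr_deriv ?_
      show -Complex.I * (hopf c (fun y => (W.U t ψ) y) (α x) + V (α x) * (W.U t ψ) (α x)) + (0 : ℂ) =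
        -Complex.I * (hopf c (fun y => (R (W.U t ψ)) y) x + V' x * (R (W.U t ψ)) x) + (0 : ℂ)
      have e2 : hopf c (fun y => (R (W.U t ψ)) y) x = hopf c (fun y => (W.U t ψ) y) (α x) := by
        unfold hopf
        congr 1
        simp only [hR]
        exact hα (fun y => (W.U t ψ) y) x
      rw [e2, hR, hV]
  have h := ALL.a_UN d c V' W' hW' _ _ continuous_const hsol t
  simp only [map_zero, intervalIntegral.integral_zero, add_zero, W.zero'] at h
  exact h.symm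

theorem AT_aut {α : Site d → Site d} (hα : Aut α) {R : L2 (Site d) →L[ℂ] L2 (Site d)}
    (hR : ∀ ψ x, (R ψ) x = ψ (α x)) {c : ℝ} {V V' : Site d → ℝ} {W W' : UG (L2 (Site d))}
    (hW : IsGrp c V W) (hW' : IsGrp c V' W') (hV : ∀ x, V' x = V (α x)) {F G : Site d → ℂ}
    (hF : Bd F) (hG : Bd G) (hFG : ∀ x, F x = G (α x)) (T : ℝ) (ψ : L2 (Site d)) :
    AT W' (fm F hF) T (R ψ) = R (AT W (fm G hG) T ψ) := by
  rw [AT_apply, AT_apply, map_smul]
  congr 1
  have h1 := ContinuousLinearMap.intervalIntegral_comp_comm R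
    ((BP.g_cont W (fm G hG) ψ).intervalIntegrable (μ := volume) 0 T)
  refine Eq.trans ?_ h1
  refine intervalIntegral.integral_congr fun s _ => ?_
  show W'.U (-s) (fm F hF (W'.U s (R ψ))) = R (W.U (-s) (fm G hG (W.U s ψ)))
  have e : fm F hF (R (W.U s ψ)) = R (fm G hG (W.U s ψ)) := by
    refine lp.ext (funext fun x => ?_)
    rw [fm_apply, hR, hR, fm_apply, hFG]
  rw [U_aut hα hR hW hW' hV, e, U_aut hα hR hW hW' hV]

theorem exists_R {α : Site d → Site d} (hα : Function.Injective α) :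
    ∃ R : L2 (Site d) →L[ℂ] L2 (Site d), ∀ ψ x, (R ψ) x = ψ (α x) := by
  obtain ⟨A, hA⟩ := Pool.Agent.H4R2.AE.Exist.exists_op α hα (fun _ => 1) 1 zero_le_one (by simp)
  exact ⟨A, fun ψ x => by rw [hA, one_mul]⟩

variable {K : ℝ} {ν : Measure ℝ} [IsProbabilityMeasure ν] {ev : (Site d → ℝ) → UG (L2 (Site d))}

theorem PA_U {ω : Site d → ℝ} (hω : ∀ x, |ω x| ≤ K)
    (hev : IsGrp (-1) (fun x => 2 * d + ω x) (ev ω)) (t : ℝ) (ψ : L2 (Site d)) :
    PA K ω ((ev ω).U t ψ) = (ev ω).U t (PA K ω ψ) := by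
  refine acP_comm (HV_sa K ω) (C := (ev ω).U t) (C' := (ev ω).U (-t)) (fun x => ?_) (fun x => ?_)
    (fun x y => ?_) ψ
  · rw [grp_Ex hω hev, grp_Ex hω hev, Ex_comm]
  · rw [grp_Ex hω hev, grp_Ex hω hev, Ex_comm]
  · have := STAT.inner_adj (ev ω) (-t) x y
    rw [neg_neg] at this
    exact this.symm

/-- **the limits of the averages of a slowly varying function are functions of the Hamiltonian** -/
theorem thmA (hd : 1 ≤ d) (hK : ∀ᵐ r ∂ν, |r| ≤ K) (hν : ∀ r : ℝ, ν {r} ≠ 1)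
    (hev : ∀ ω : Site d → ℝ, IsGrp (-1) (fun x => 2 * d + ω x) (ev ω)) {F : Site d → ℂ}
    (hF : Bd F) (hS : ∀ a : Site d, Thin fun x => F (x + a) - F x) {τ : ℕ → ℝ}
    (hτ : Tendsto τ atTop atTop) :
    ∃ (w : ℕ → (ℕ →₀ ℝ)) (f : ℝ → ℂ), (∀ n, Wt n (w n)) ∧ Measurable f ∧
      (∃ R : ℝ, ∀ E, ‖f E‖ ≤ R) ∧
      ∀ᵐ ω ∂(PP d ν), (∀ x, |ω x| ≤ K) ∧ ∃ B : L2 (Site d) →L[ℂ] L2 (Site d),
        (∀ x, Tendsto (fun n => cmc (fun k => AT (ev ω) (fm F hF) (τ k) x) (w n)) atTop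
          (𝓝 (B x))) ∧
        (∀ ψ, spm (HV_sa K ω) ψ ≪ volume → spm (HV_sa K ω) (B ψ) ≪ volume) ∧
        (∀ ψ, spm (HV_sa K ω) ψ ≪ volume → ‖B ψ‖ ^ 2 = ∫ E, ‖f E‖ ^ 2 ∂(spm (HV_sa K ω) ψ)) ∧
        ∀ ψ, spm (HV_sa K ω) ψ ≪ volume → ∀ t : ℝ, ⟪Ex (HV K ω) t ψ, B ψ⟫_ℂ =
          ∫ E : ℝ, Complex.exp (Complex.I * t * E) * f E ∂(spm (HV_sa K ω) ψ) := by
  have hPP : IsProbabilityMeasure (PP d ν) := by unfold PP; infer_instance
  set C : ℝ := ‖fm F hF‖ with hC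
  have hC0 : 0 ≤ C := norm_nonneg _
  set T : ℕ → OF d := fun k ω => AT (ev ω) (fm F hF) (τ k) with hT
  have hTn : ∀ N ω x, ‖T N ω x‖ ≤ C * ‖x‖ := fun N ω x => norm_AT _ _ _ _
  have hTm : ∀ N y, StronglyMeasurable fun ω => T N ω (dl y) := fun N y =>
    sm_AT hev (fm F hF) (τ N) (fun _ => dl y) stronglyMeasurable_const
  obtain ⟨w, hw, hlim⟩ := ops_cmb (P := PP d ν) hC0 hTn fun N y => (hTm N y).aestronglyMeasurable
  have hSn : ∀ n ω x, ‖cmo T (w n) ω x‖ ≤ C * ‖x‖ := by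
    intro n ω x
    rw [cmo_apply]
    exact norm_cmc_le (hw n) fun k _ => hTn k ω x
  obtain ⟨W, hWn, hWm, hWl⟩ := field_of_lim (S := fun n => cmo T (w n)) hC0 hSn
    (fun n y => sm_cmo (fun k => hTm k y) (w n)) hlim
  have hbd : ∀ᵐ ω ∂(PP d ν), ∀ x, |ω x| ≤ K := by
    rw [ae_all_iff]
    intro x
    exact (measurePreserving_eval_infinitePi
      (fun _ : Site d => ν) x).quasiMeasurePreserving.ae hK
  -- commutation
  have hcom : ∀ᵐ ω ∂(PP d ν), ∀ t x, W ω ((ev ω).U t x) = (ev ω).U t (W ω x) := by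
    filter_upwards [hWl] with ω hω t x
    have h1 := hω ((ev ω).U t x)
    have h2 : Tendsto (fun n => (ev ω).U t (cmo T (w n) ω x)) atTop (𝓝 ((ev ω).U t (W ω x))) :=
      (((ev ω).U t).continuous.tendsto _).comp (hω x)
    have h3 : Tendsto (fun k => T k ω ((ev ω).U t x) - (ev ω).U t (T k ω x)) atTop (𝓝 0) := by
      rw [tendsto_zero_iff_norm_tendsto_zero]
      have h4 : Tendsto (fun k => (τ k)⁻¹ * (2 * (C * ‖x‖ * |t|))) atTop (𝓝 0) := by
        have := (tendsto_inv_atTop_zero.comp hτ).mul_const (2 * (C * ‖x‖ * |t|))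
        rwa [zero_mul] at this
      refine squeeze_zero' (Eventually.of_forall fun k => norm_nonneg _) ?_ h4
      filter_upwards [hτ.eventually (eventually_gt_atTop 0)] with k hk
      exact AT_shift (ev ω) (fm F hF) hk x t
    have h5 := cmc_zero h3 hw
    have h6 : ∀ n, cmc (fun k => T k ω ((ev ω).U t x) - (ev ω).U t (T k ω x)) (w n) =
        cmo T (w n) ω ((ev ω).U t x) - (ev ω).U t (cmo T (w n) ω x) := by
      intro n
      rw [cmc_sub, cmc_map, cmo_apply, cmo_apply]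
    simp_rw [h6] at h5
    exact (sub_eq_zero.1 (tendsto_nhds_unique h5 (h1.sub h2)).symm)
  -- covariance on the absolutely continuous subspace
  have hcov : ∀ᵐ ω ∂(PP d ν), ∀ (z : Site d) (S : L2 (Site d) →L[ℂ] L2 (Site d)), IsShift z S →
      ∀ ψ, spm (HV_sa K ω) ψ ≪ volume →
        W (fun y => ω (y + z)) (S ψ) = S (W ω ψ) := by
    have hWl' : ∀ᵐ ω ∂(PP d ν), ∀ z : Site d, ∀ x,
        Tendsto (fun n => cmo T (w n) (fun y => ω (y + z)) x) atTop
          (𝓝 (W (fun y => ω (y + z)) x)) := by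
      rw [ae_all_iff]
      intro z
      exact ((t_RES d ν).2 z).quasiMeasurePreserving.ae hWl
    have hthin : ∀ᵐ ω ∂(PP d ν), ∀ z : Site d, ∀ ψ, spm (HV_sa K ω) ψ ≪ volume →
        Tendsto (fun T : ℝ => AT (ev ω) (fm (fun x => F (x + z) - F x)
          ((hF.comp fun x => x + z).sub hF)) T ψ) atTop (𝓝 0) := by
      rw [ae_all_iff]
      intro z
      exact thin_as hd hK hν hev (hS z) _
    filter_upwards [hWl, hWl', hthin] with ω h1 h2 h3 z S hSz ψ hψ
    have h4 := h2 z (S ψ)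
    have h5 : Tendsto (fun n => S (cmo T (w n) ω ψ)) atTop (𝓝 (S (W ω ψ))) :=
      (S.continuous.tendsto _).comp (h1 ψ)
    have h6 : ∀ k, T k (fun y => ω (y + z)) (S ψ) = S (T k ω ψ) +
        S (AT (ev ω) (fm (fun x => F (x + -z) - F x)
          ((hF.comp fun x => x + -z).sub hF)) (τ k) ψ) := by
      intro k
      have h7 : T k (fun y => ω (y + z)) (S ψ) = S (AT (ev ω) (fm (fun x => F (x + -z))
          (hF.comp fun x => x + -z)) (τ k) ψ) := by
        refine AT_aut (aut_shift z) hSz (hev ω) (hev _) (fun x => rfl) hF _ (fun x => ?_) _ _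
        rw [add_neg_cancel_right]
      rw [h7, ← map_add]
      congr 1
      rw [fm_sub (hF.comp fun x => x + -z) hF, AT_sub]
      show _ = AT (ev ω) (fm F hF) (τ k) ψ + _
      abel
    have h8 : Tendsto (fun k => S (AT (ev ω) (fm (fun x => F (x + -z) - F x)
          ((hF.comp fun x => x + -z).sub hF)) (τ k) ψ)) atTop (𝓝 0) := by
      have := (S.continuous.tendsto _).comp ((h3 (-z) ψ hψ).comp hτ)
      rw [map_zero] at this
      exact this
    have h9 := h5.add (cmc_zero h8 hw)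
    rw [add_zero] at h9
    refine tendsto_nhds_unique h4 (h9.congr fun n => ?_)
    rw [cmo_apply, cmo_apply, ← cmc_map, ← cmc_add]
    congr 1
    funext k
    exact (h6 k).symm
  -- the field on the absolutely continuous subspace
  set W1 : OF d := fun ω => (W ω).comp (PA K ω) with hW1
  have hW1n : ∀ ω x, ‖W1 ω x‖ ≤ C * ‖x‖ := fun ω x =>
    (hWn ω _).trans (mul_le_mul_of_nonneg_left (acP_norm _ _) hC0)
  have hW1m : ∀ y, AEStronglyMeasurable (fun ω => W1 ω (dl y)) (PP d ν) := by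
    intro y
    exact aesm_app (fun y => (hWm y).aestronglyMeasurable)
      (PA_aesm K ν (aestronglyMeasurable_const : AEStronglyMeasurable (fun _ => dl y) (PP d ν)))
  obtain ⟨W2, hW2n, hW2m, hW2e⟩ := fix_meas hC0 hW1n hW1m
  have hW2c : ∀ᵐ V ∂(PP d ν), ∀ (z : Site d) (S : L2 (Site d) →L[ℂ] L2 (Site d)), IsShift z S →
      ∀ ψ, W2 (fun y => V (y + z)) (S ψ) = S (W2 V ψ) := by
    have hW2e' : ∀ᵐ ω ∂(PP d ν), ∀ z : Site d,
        W2 (fun y => ω (y + z)) = W1 (fun y => ω (y + z)) := by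
      rw [ae_all_iff]
      intro z
      exact ((t_RES d ν).2 z).quasiMeasurePreserving.ae hW2e
    filter_upwards [hW2e, hW2e', hcov] with ω h1 h2 h3 z S hSz ψ
    rw [h1, h2]
    show W (fun y => ω (y + z)) (PA K (fun y => ω (y + z)) (S ψ)) = S (W ω (PA K ω ψ))
    have h4 : PA K (fun y => ω (y + z)) (S ψ) = S (PA K ω ψ) := PA_shift K ω z hSz ψ
    rw [h4]
    exact h3 z S hSz _ (acP_ac _ _)
  obtain ⟨W3, hW3a, hW3m, hW3c, hW3e⟩ := fix_cov
    (fun u x => by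
      have h1 : StronglyMeasurable fun ω => W2 ω u := sm_app hW2m stronglyMeasurable_const
      have h2 : ∀ ω, (W2 ω u) x = ⟪(dl x : L2 (Site d)), W2 ω u⟫_ℂ := fun ω =>
        (STAT.inner_dl x _).symm
      simp only [h2]
      exact (stronglyMeasurable_const.inner h1).measurable) hW2c
  have hW3n : ∀ ω x, ‖W3 ω x‖ ≤ C * ‖x‖ := by
    intro ω x
    rcases hW3a ω with h | h
    · rw [h]
      exact hW2n ω x
    · rw [h, zero_apply, norm_zero]
      positivity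
  have hall : ∀ᵐ ω ∂(PP d ν), W3 ω = W1 ω := by
    filter_upwards [hW3e, hW2e] with ω h1 h2
    rw [h1, h2]
  have hcom3 : ∀ᵐ ω ∂(PP d ν), ∀ t x, W3 ω ((ev ω).U t x) = (ev ω).U t (W3 ω x) := by
    filter_upwards [hall, hcom, hbd] with ω h1 h2 h3 t x
    rw [h1]
    show W ω (PA K ω ((ev ω).U t x)) = (ev ω).U t (W ω (PA K ω x))
    rw [PA_U h3 (hev ω), h2]
  obtain ⟨f, hf1, hf2, hf3⟩ := main_gen hd hK hν hev hW3n hW3m hW3c hcom3
  refine ⟨w, f, hw, hf1, hf2, ?_⟩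
  filter_upwards [hf3, hall, hWl] with ω ⟨h1, h2, hngl, h3⟩ h4 h5
  have h6 : ∀ ψ, spm (HV_sa K ω) ψ ≪ volume → W3 ω ψ = W ω ψ := by
    intro ψ hψ
    rw [h4]
    show W ω (PA K ω ψ) = W ω ψ
    have : PA K ω ψ = ψ := acP_of _ hψ
    rw [this]
  refine ⟨h1, W ω, fun x => ?_, fun ψ hψ => ?_, fun ψ hψ => ?_, fun ψ hψ t => ?_⟩
  · have := h5 x
    simp only [cmo_apply] at this
    exact this
  · rw [← h6 ψ hψ]
    exact spm_comm_ac (HV_sa K ω) h2 hψ
  · rw [← h6 ψ hψ]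
    have h7 := norm_of_ngl (HV_sa K ω) h2 hf1 hψ (hngl ψ)
    obtain ⟨R', hR'⟩ := hf2
    have h8 : ∫⁻ E, ‖f E‖ₑ ^ 2 ∂(spm (HV_sa K ω) ψ) =
        ENNReal.ofReal (∫ E, ‖f E‖ ^ 2 ∂(spm (HV_sa K ω) ψ)) := by
      rw [ofReal_integral_eq_lintegral_ofReal]
      · refine lintegral_congr fun E => ?_
        rw [← ofReal_norm, ← ENNReal.ofReal_pow (norm_nonneg _)]
      · refine Integrable.of_bound (hf1.norm.pow_const 2).aestronglyMeasurable (R' ^ 2)
          (ae_of_all _ fun E => ?_)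
        rw [norm_pow, norm_norm]
        exact pow_le_pow_left₀ (norm_nonneg _) (hR' E) 2
      · exact ae_of_all _ fun E => sq_nonneg _
    have h9 : ‖W3 ω ψ‖ₑ ^ 2 = ENNReal.ofReal (‖W3 ω ψ‖ ^ 2) := by
      rw [← ofReal_norm, ENNReal.ofReal_pow (norm_nonneg _)]
    rw [h9, h8] at h7
    exact (ENNReal.ofReal_eq_ofReal_iff (by positivity)
      (integral_nonneg fun E => sq_nonneg _)).1 h7
  · rw [← h6 ψ hψ]
    exact h3 ψ hψ t

end Pool.Agent.H39.EQ
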