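import Pool.Agent.H39.EQ.E5

/-! # Symmetry: isotropic averages are constants; convergence in mean -/

set_option autoImplicit false

open MeasureTheory Filter Topology
open scoped ENNReal NNReal InnerProductSpace ComplexConjugate

namespace Pool.Agent.H39.EQ

open Pool.Agent.H5R2 Pool.Agent.H5R2.NB Pool.Agent.H39.AC
open Pool.Agent.TH980.IM (HV HV_sa spm)
open Pool.Agent.Y662.ERG
open Pool.Agent.R988.NQ (OF fix_cov main_gen)

variable {d : ℕ}

theorem mp_comp (ν : Measure ℝ) [IsProbabilityMeasure ν] (β : Site d ≃ Site d) :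
    MeasurePreserving (fun (ω : Site d → ℝ) (x : Site d) => ω (β x)) (PP d ν) (PP d ν) := by
  have h := Measure.infinitePi_map_piCongrLeft (μ := fun _ : Site d => ν) β.symm
  have e : (MeasurableEquiv.piCongrLeft (fun _ : Site d => ℝ) β.symm :
      (Site d → ℝ) → (Site d → ℝ)) = fun ω x => ω (β x) := by
    funext ω x
    have := MeasurableEquiv.piCongrLeft_apply_apply β.symm (β := fun _ : Site d => ℝ) ω (β x)
    simpa using this
  refine ⟨by fun_prop, ?_⟩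
  unfold PP
  rw [← e]
  exact h

theorem R_inner (β : Site d ≃ Site d) {R : L2 (Site d) →L[ℂ] L2 (Site d)}
    (hR : ∀ ψ x, (R ψ) x = ψ (β x)) (φ ψ : L2 (Site d)) : ⟪R φ, R ψ⟫_ℂ = ⟪φ, ψ⟫_ℂ := by
  rw [lp.inner_eq_tsum, lp.inner_eq_tsum]
  simp only [hR]
  exact β.tsum_eq fun x => (⟪φ x, ψ x⟫_ℂ : ℂ)

variable {K : ℝ} {ν : Measure ℝ} [IsProbabilityMeasure ν] {ev : (Site d → ℝ) → UG (L2 (Site d))}

theorem spm_aut (hev : ∀ ω : Site d → ℝ, IsGrp (-1) (fun x => 2 * d + ω x) (ev ω))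
    (β : Site d ≃ Site d) (hβ : Aut β) {R : L2 (Site d) →L[ℂ] L2 (Site d)}
    (hR : ∀ ψ x, (R ψ) x = ψ (β x)) {ω : Site d → ℝ} (hω : ∀ x, |ω x| ≤ K) (ψ : L2 (Site d)) :
    spm (HV_sa K ω) ψ = spm (HV_sa K fun x => ω (β x)) (R ψ) := by
  apply spm_unique
  intro t
  have h1 : (ev fun x => ω (β x)).U t (R ψ) = Ex (HV K fun x => ω (β x)) t (R ψ) :=
    grp_Ex (fun x => hω (β x)) (hev _) t _
  have h2 : (ev ω).U t ψ = Ex (HV K ω) t ψ := grp_Ex hω (hev _) t _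
  rw [← h1, U_aut hβ hR (hev ω) (hev _) (fun x => rfl) t ψ, R_inner β hR, h2, Ex_spm]

/-- polarization on an invariant subspace -/
theorem polar {X : Type} [NormedAddCommGroup X] [InnerProductSpace ℂ X] (S : Submodule ℂ X)
    (D : X →L[ℂ] X) (hD : ∀ ψ ∈ S, D ψ ∈ S) (h : ∀ ψ ∈ S, ⟪ψ, D ψ⟫_ℂ = 0) {ψ : X} (hψ : ψ ∈ S) :
    D ψ = 0 := by
  have key : ∀ φ ∈ S, ∀ ψ ∈ S, ⟪φ, D ψ⟫_ℂ = 0 := by
    intro φ hφ ψ hψ
    have h1 := h (φ + ψ) (S.add_mem hφ hψ)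
    have h2 := h (φ + Complex.I • ψ) (S.add_mem hφ (S.smul_mem _ hψ))
    rw [map_add, inner_add_left, inner_add_right, inner_add_right, h φ hφ, h ψ hψ] at h1
    rw [map_add, map_smul, inner_add_left, inner_add_right, inner_add_right, inner_smul_left,
      inner_smul_left, inner_smul_right, inner_smul_right, h φ hφ, h ψ hψ, Complex.conj_I] at h2
    have h3 : ⟪φ, D ψ⟫_ℂ + ⟪ψ, D φ⟫_ℂ = 0 := by linear_combination h1
    have h4 : Complex.I * (⟪φ, D ψ⟫_ℂ - ⟪ψ, D φ⟫_ℂ) = 0 := by linear_combination h2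
    have h5 : ⟪φ, D ψ⟫_ℂ - ⟪ψ, D φ⟫_ℂ = 0 := by
      rcases mul_eq_zero.1 h4 with h | h
      · exact absurd h Complex.I_ne_zero
      · exact h
    have h6 : 2 * ⟪φ, D ψ⟫_ℂ = 0 := by linear_combination h3 + h5
    rcases mul_eq_zero.1 h6 with h | h
    · norm_num at h
    · exact h
  exact inner_self_eq_zero.1 (key _ (hD ψ hψ) ψ hψ)

theorem thmB (hd : 1 ≤ d) (hK : ∀ᵐ r ∂ν, |r| ≤ K) (hν : ∀ r : ℝ, ν {r} ≠ 1)
    (hev : ∀ ω : Site d → ℝ, IsGrp (-1) (fun x => 2 * d + ω x) (ev ω)) {F : Site d → ℂ}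
    (hF : Bd F) {τ : ℕ → ℝ} (hτ : Tendsto τ atTop atTop)
    {w : ℕ → (ℕ →₀ ℝ)} {f : ℝ → ℂ} (hw : ∀ n, Wt n (w n))
    (hall : ∀ᵐ ω ∂(PP d ν), (∀ x, |ω x| ≤ K) ∧ ∃ B : L2 (Site d) →L[ℂ] L2 (Site d),
        (∀ x, Tendsto (fun n => cmc (fun k => AT (ev ω) (fm F hF) (τ k) x) (w n)) atTop
          (𝓝 (B x))) ∧
        (∀ ψ, spm (HV_sa K ω) ψ ≪ volume → spm (HV_sa K ω) (B ψ) ≪ volume) ∧
        ∀ ψ, spm (HV_sa K ω) ψ ≪ volume → ∀ t : ℝ, ⟪Ex (HV K ω) t ψ, B ψ⟫_ℂ =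
          ∫ E : ℝ, Complex.exp (Complex.I * t * E) * f E ∂(spm (HV_sa K ω) ψ))
    {ι : Type} [Fintype ι] [Nonempty ι] (β : ι → (Site d ≃ Site d)) (hβ : ∀ i, Aut (β i))
    {c : ℂ} (hc : Thin fun x => ∑ i, F ((β i).symm x) - (Fintype.card ι : ℂ) * c) :
    ∀ᵐ ω ∂(PP d ν), ∀ ψ, spm (HV_sa K ω) ψ ≪ volume →
      Tendsto (fun n => cmc (fun k => AT (ev ω) (fm F hF) (τ k) ψ) (w n)) atTop
        (𝓝 (c • ψ)) := by
  have hall' : ∀ᵐ ω ∂(PP d ν), ∀ i, ∃ B : L2 (Site d) →L[ℂ] L2 (Site d),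
        (∀ x, Tendsto (fun n => cmc (fun k => AT (ev fun x => ω (β i x)) (fm F hF) (τ k) x) (w n))
          atTop (𝓝 (B x))) ∧
        ∀ ψ, spm (HV_sa K fun x => ω (β i x)) ψ ≪ volume → ∀ t : ℝ,
          ⟪Ex (HV K fun x => ω (β i x)) t ψ, B ψ⟫_ℂ =
          ∫ E : ℝ, Complex.exp (Complex.I * t * E) * f E ∂(spm (HV_sa K fun x => ω (β i x)) ψ) := by
    rw [ae_all_iff]
    intro i
    filter_upwards [(mp_comp ν (β i)).quasiMeasurePreserving.ae hall] with ω ⟨_, B, h1, _, h2⟩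
    exact ⟨B, h1, h2⟩
  choose R hR using fun i => exists_R (β i).injective
  have hGb : ∀ i, Bd fun x => F ((β i).symm x) := fun i => hF.comp _
  have hsb : Bd fun x => ∑ i, F ((β i).symm x) := Bd.sum Finset.univ _ hGb
  have hNb : Bd fun _ : Site d => (Fintype.card ι : ℂ) * c := Bd.const _
  filter_upwards [hall, hall', thin_as hd hK hν hev hc (hsb.sub hNb)] with ω ⟨hω, B, hB1, hB2, hB3⟩
    h2 h3 ψ hψ
  have hN : (Fintype.card ι : ℂ) ≠ 0 := by
    exact_mod_cast Fintype.card_ne_zero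
  have hJ : ∀ φ, spm (HV_sa K ω) φ ≪ volume → ⟪φ, B φ⟫_ℂ = c * ⟪φ, φ⟫_ℂ := by
    intro φ hφ
    set J : ℂ := ∫ E : ℝ, Complex.exp (Complex.I * (0 : ℝ) * E) * f E ∂(spm (HV_sa K ω) φ) with hJd
    have j1 : ⟪φ, B φ⟫_ℂ = J := by
      have := hB3 φ hφ 0
      rwa [Ex_zero] at this
    have j2 : ∀ i, Tendsto (fun n => ⟪φ, cmc (fun k => AT (ev ω)
        (fm (fun x => F ((β i).symm x)) (hGb i)) (τ k) φ) (w n)⟫_ℂ) atTop (𝓝 J) := by
      intro i
      obtain ⟨Bi, b1, b2⟩ := h2 i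
      have e1 := spm_aut hev (β i) (hβ i) (hR i) hω φ
      have b3 := b2 (R i φ) (by rw [← e1]; exact hφ) 0
      rw [Ex_zero, ← e1] at b3
      have b4 : Tendsto (fun n => ⟪R i φ, cmc (fun k => AT (ev fun x => ω (β i x)) (fm F hF) (τ k)
          (R i φ)) (w n)⟫_ℂ) atTop (𝓝 ⟪R i φ, Bi (R i φ)⟫_ℂ) := tendsto_const_nhds.inner (b1 _)
      rw [b3] at b4
      refine b4.congr fun n => ?_
      have e2 : (fun k => AT (ev fun x => ω (β i x)) (fm F hF) (τ k) (R i φ)) =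
          fun k => R i (AT (ev ω) (fm (fun x => F ((β i).symm x)) (hGb i)) (τ k) φ) := by
        funext k
        refine AT_aut (hβ i) (hR i) (hev ω) (hev _) (fun x => rfl) hF (hGb i) (fun x => ?_) _ _
        rw [Equiv.symm_apply_apply]
      rw [e2, cmc_map, R_inner (β i) (hR i)]
    have j3 : Tendsto (fun n => ⟪φ, cmc (fun k => AT (ev ω)
        (fm (fun x => ∑ i, F ((β i).symm x)) hsb) (τ k) φ) (w n)⟫_ℂ) atTop
        (𝓝 ((Fintype.card ι : ℂ) * J)) := by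
      have h4 := tendsto_finsetSum Finset.univ fun (i : ι) _ => j2 i
      rw [Finset.sum_const, Finset.card_univ, nsmul_eq_mul] at h4
      refine h4.congr fun n => ?_
      rw [← inner_sum, ← cmc_sum]
      congr 2
      funext k
      rw [fm_sum Finset.univ (fun i x => F ((β i).symm x)) hGb]
      have hAs : ∀ s : Finset ι, AT (ev ω) (∑ i ∈ s, fm (fun x => F ((β i).symm x)) (hGb i)) (τ k) φ =
          ∑ i ∈ s, AT (ev ω) (fm (fun x => F ((β i).symm x)) (hGb i)) (τ k) φ := by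
        classical
        intro s
        induction s using Finset.induction_on with
        | empty =>
          rw [Finset.sum_empty, Finset.sum_empty]
          have := AT_smul (ev ω) (0 : L2 (Site d) →L[ℂ] L2 (Site d)) 0 (τ k) φ
          rwa [zero_smul, zero_smul] at this
        | insert a s ha ih =>
          rw [Finset.sum_insert ha, Finset.sum_insert ha, AT_add, ih]
      exact (hAs Finset.univ).symm
    have j4 : Tendsto (fun n => ⟪φ, cmc (fun k => AT (ev ω)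
        (fm (fun x => ∑ i, F ((β i).symm x)) hsb) (τ k) φ) (w n)⟫_ℂ) atTop
        (𝓝 ⟪φ, ((Fintype.card ι : ℂ) * c) • φ⟫_ℂ) := by
      refine tendsto_const_nhds.inner (cmc_tendsto ?_ hw)
      have h5 := (h3 φ hφ).comp hτ
      have h6 := h5.add_const (((Fintype.card ι : ℂ) * c) • φ)
      rw [zero_add] at h6
      refine h6.congr' ?_
      filter_upwards [hτ.eventually (eventually_gt_atTop 0)] with k hk
      show AT (ev ω) (fm (fun x => ∑ i, F ((β i).symm x) - (Fintype.card ι : ℂ) * c)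
        (hsb.sub hNb)) (τ k) φ + ((Fintype.card ι : ℂ) * c) • φ = _
      rw [fm_sub hsb hNb, AT_sub, fm_const, AT_smul, AT_id (ev ω) hk.ne']
      abel
    have j5 := tendsto_nhds_unique j3 j4
    rw [inner_smul_right, mul_assoc] at j5
    rw [j1]
    exact mul_left_cancel₀ hN j5
  have h7 := polar (acS (HV_sa K ω)) (B - c • ContinuousLinearMap.id ℂ _) (fun φ hφ => ?_)
    (fun φ hφ => ?_) (show ψ ∈ acS (HV_sa K ω) from hψ)
  · have h8 : B ψ = c • ψ := by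
      have : B ψ - c • ψ = 0 := h7
      exact sub_eq_zero.1 this
    rw [← h8]
    exact hB1 ψ
  · exact (acS (HV_sa K ω)).sub_mem (hB2 φ hφ) ((acS (HV_sa K ω)).smul_mem _ hφ)
  · show ⟪φ, B φ - c • φ⟫_ℂ = 0
    rw [inner_sub_right, inner_smul_right, hJ φ hφ, sub_self]

/-! ### convergence in mean -/

/-- convergence from convergence of convex combinations along all sequences -/
theorem tendsto_of_cmb {a : ℝ → ℂ} {l : ℂ}
    (H : ∀ τ : ℕ → ℝ, Tendsto τ atTop atTop → ∃ w : ℕ → (ℕ →₀ ℝ), (∀ n, Wt n (w n)) ∧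
      Tendsto (fun n => cmc (fun k => a (τ k)) (w n)) atTop (𝓝 l)) : Tendsto a atTop (𝓝 l) := by
  by_contra hcon
  rw [Metric.tendsto_nhds] at hcon
  push Not at hcon
  obtain ⟨ε, hε, hfr⟩ := hcon
  have hsplit : ∃ ζ : ℂ, ∃ᶠ T in atTop, ε / 2 ≤ (ζ * (a T - l)).re := by
    have h1 : ∃ᶠ T in atTop, (ε / 2 ≤ ((1 : ℂ) * (a T - l)).re ∨
        ε / 2 ≤ ((-1 : ℂ) * (a T - l)).re) ∨
        (ε / 2 ≤ ((-Complex.I) * (a T - l)).re ∨ ε / 2 ≤ (Complex.I * (a T - l)).re) := by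
      refine hfr.mono fun T hT => ?_
      rw [dist_eq_norm] at hT
      have h2 := Complex.norm_le_abs_re_add_abs_im (a T - l)
      set z := a T - l
      have e1 : ((1 : ℂ) * z).re = z.re := by rw [one_mul]
      have e2 : ((-1 : ℂ) * z).re = -z.re := by rw [neg_one_mul, Complex.neg_re]
      have e3 : ((-Complex.I) * z).re = z.im := by simp
      have e4 : (Complex.I * z).re = -z.im := by simp
      rw [e1, e2, e3, e4]
      by_cases h3 : ε / 2 ≤ |z.re|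
      · left
        rcases le_total 0 z.re with h4 | h4
        · left
          rwa [abs_of_nonneg h4] at h3
        · right
          rwa [abs_of_nonpos h4] at h3
      · right
        have h5 : ε / 2 ≤ |z.im| := by
          push Not at h3
          linarith
        rcases le_total 0 z.im with h4 | h4
        · left
          rwa [abs_of_nonneg h4] at h5
        · right
          rwa [abs_of_nonpos h4] at h5
    rw [frequently_or_distrib, frequently_or_distrib, frequently_or_distrib] at h1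
    rcases h1 with (h | h) | (h | h)
    · exact ⟨_, h⟩
    · exact ⟨_, h⟩
    · exact ⟨_, h⟩
    · exact ⟨_, h⟩
  obtain ⟨ζ, hζ⟩ := hsplit
  have hseq : ∀ k : ℕ, ∃ T : ℝ, (k : ℝ) ≤ T ∧ ε / 2 ≤ (ζ * (a T - l)).re := fun k =>
    (frequently_atTop.1 hζ (k : ℝ))
  choose τ hτ1 hτ2 using hseq
  have hτ : Tendsto τ atTop atTop := tendsto_atTop_mono hτ1 tendsto_natCast_atTop_atTop
  obtain ⟨w, hw, hlim⟩ := H τ hτ
  have h1 : Tendsto (fun n => (ζ * (cmc (fun k => a (τ k)) (w n) - l)).re) atTop (𝓝 0) := by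
    have h2 := (Complex.continuous_re.tendsto _).comp ((hlim.sub_const l).const_mul ζ)
    rw [sub_self, mul_zero, Complex.zero_re] at h2
    exact h2
  have h2 : ∀ n, ε / 2 ≤ (ζ * (cmc (fun k => a (τ k)) (w n) - l)).re := by
    intro n
    have e1 : ζ * (cmc (fun k => a (τ k)) (w n) - l) = cmc (fun k => ζ * (a (τ k) - l)) (w n) := by
      have e2 : l = cmc (fun _ => l) (w n) := (cmc_const (hw n) l).symm
      conv_lhs => rw [e2]
      rw [← cmc_sub, ← smul_eq_mul, ← cmc_smul]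
      rfl
    rw [e1]
    unfold cmc
    rw [Complex.re_sum]
    calc ε / 2 = ∑ k ∈ (w n).support, w n k * (ε / 2) := by
          rw [← Finset.sum_mul, (hw n).sum, one_mul]
      _ ≤ _ := by
          refine Finset.sum_le_sum fun k _ => ?_
          rw [smul_eq_mul, Complex.re_ofReal_mul]
          exact mul_le_mul_of_nonneg_left (hτ2 k) ((hw n).nonneg k)
  have h3 := ge_of_tendsto' h1 h2
  linarith

theorem thmC (hev : ∀ ω : Site d → ℝ, IsGrp (-1) (fun x => 2 * d + ω x) (ev ω)) {F : Site d → ℂ}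
    (hF : Bd F) {c : ℂ}
    (H : ∀ τ : ℕ → ℝ, Tendsto τ atTop atTop → ∃ w : ℕ → (ℕ →₀ ℝ), (∀ n, Wt n (w n)) ∧
      ∀ᵐ ω ∂(PP d ν), ∀ ψ, spm (HV_sa K ω) ψ ≪ volume →
        Tendsto (fun n => cmc (fun k => AT (ev ω) (fm F hF) (τ k) ψ) (w n)) atTop (𝓝 (c • ψ)))
    {φ ψ : (Site d → ℝ) → L2 (Site d)} (hφ : MemLp φ 2 (PP d ν)) (hψ : MemLp ψ 2 (PP d ν))
    (hac : ∀ᵐ ω ∂(PP d ν), spm (HV_sa K ω) (ψ ω) ≪ volume) :
    Tendsto (fun T : ℝ => ∫ ω, ⟪φ ω, AT (ev ω) (fm F hF) T (ψ ω)⟫_ℂ ∂(PP d ν)) atTop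
      (𝓝 (c * ∫ ω, ⟪φ ω, ψ ω⟫_ℂ ∂(PP d ν))) := by
  set C : ℝ := ‖fm F hF‖ with hC
  have hm : ∀ T : ℝ, AEStronglyMeasurable (fun ω => AT (ev ω) (fm F hF) T (ψ ω)) (PP d ν) := by
    intro T
    refine aesm_app (fun y => ?_) hψ.1
    exact (sm_AT hev (fm F hF) T (fun _ => dl y) stronglyMeasurable_const).aestronglyMeasurable
  have hbi : Integrable (fun ω => ‖φ ω‖ * (C * ‖ψ ω‖)) (PP d ν) := by
    have h1 := (hφ.norm.integrable_mul hψ.norm).const_mul C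
    refine h1.congr (ae_of_all _ fun ω => ?_)
    show C * (‖φ ω‖ * ‖ψ ω‖) = _
    ring
  have hint : ∀ T : ℝ, Integrable (fun ω => ⟪φ ω, AT (ev ω) (fm F hF) T (ψ ω)⟫_ℂ) (PP d ν) := by
    intro T
    refine hbi.mono' (hφ.1.inner (hm T)) (ae_of_all _ fun ω => ?_)
    refine (norm_inner_le_norm _ _).trans ?_
    exact mul_le_mul_of_nonneg_left (norm_AT _ _ _ _) (norm_nonneg _)
  refine tendsto_of_cmb fun τ hτ => ?_
  obtain ⟨w, hw, hlim⟩ := H τ hτ
  refine ⟨w, hw, ?_⟩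
  have e1 : ∀ n, cmc (fun k => ∫ ω, ⟪φ ω, AT (ev ω) (fm F hF) (τ k) (ψ ω)⟫_ℂ ∂(PP d ν)) (w n) =
      ∫ ω, ⟪φ ω, cmc (fun k => AT (ev ω) (fm F hF) (τ k) (ψ ω)) (w n)⟫_ℂ ∂(PP d ν) := by
    intro n
    unfold cmc
    simp only [inner_sum, inner_smul_right]
    rw [integral_finsetSum _ fun k _ => (hint (τ k)).const_mul _]
    refine Finset.sum_congr rfl fun k _ => ?_
    rw [integral_const_mul, smul_eq_mul]
  simp_rw [e1]
  have e2 : c * ∫ ω, ⟪φ ω, ψ ω⟫_ℂ ∂(PP d ν) = ∫ ω, ⟪φ ω, c • ψ ω⟫_ℂ ∂(PP d ν) := by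
    rw [← integral_const_mul]
    refine integral_congr_ae (ae_of_all _ fun ω => ?_)
    show c * ⟪φ ω, ψ ω⟫_ℂ = ⟪φ ω, c • ψ ω⟫_ℂ
    rw [inner_smul_right]
  rw [e2]
  refine tendsto_integral_of_dominated_convergence (fun ω => ‖φ ω‖ * (C * ‖ψ ω‖)) (fun n => ?_)
    hbi (fun n => ae_of_all _ fun ω => ?_) ?_
  · refine hφ.1.inner ?_
    unfold cmc
    refine Finset.aestronglyMeasurable_fun_sum _ fun k _ => ?_
    exact (hm (τ k)).const_smul (((w n k : ℝ)) : ℂ)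
  · refine (norm_inner_le_norm _ _).trans ?_
    refine mul_le_mul_of_nonneg_left ?_ (norm_nonneg _)
    exact norm_cmc_le (hw n) fun k _ => norm_AT _ _ _ _
  · filter_upwards [hlim, hac] with ω h1 h2
    exact tendsto_const_nhds.inner (h1 _ h2)

end Pool.Agent.H39.EQ
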