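import Pool.Agent.H39.EQ.E6

/-! # Signed permutations, half-spaces and chambers -/

set_option autoImplicit false

open MeasureTheory Filter Topology
open scoped ENNReal NNReal InnerProductSpace ComplexConjugate

namespace Pool.Agent.H39.EQ

open Pool.Agent.H5R2 Pool.Agent.H5R2.NB Pool.Agent.H39.AC

variable {d : ℕ}

/-- signed permutation of the coordinates -/
def act (σ : Equiv.Perm (Fin d)) (ε : Fin d → ℤˣ) (x : Site d) : Site d :=
  fun i => (ε i : ℤ) * x (σ i)

theorem unit_sq (e : ℤˣ) : (e : ℤ) * (e : ℤ) = 1 := by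
  rcases Int.units_eq_one_or e with h | h <;> simp [h]

/-- the inverse signed permutation -/
def actE (σ : Equiv.Perm (Fin d)) (ε : Fin d → ℤˣ) : Site d ≃ Site d where
  toFun := act σ ε
  invFun := act σ.symm (fun j => ε (σ.symm j))
  left_inv := fun x => by
    funext j
    show (ε (σ.symm j) : ℤ) * ((ε (σ.symm j) : ℤ) * x (σ (σ.symm j))) = x j
    rw [← mul_assoc, unit_sq, one_mul, Equiv.apply_symm_apply]
  right_inv := fun x => by
    funext j
    show (ε j : ℤ) * ((ε (σ.symm (σ j)) : ℤ) * x (σ.symm (σ j))) = x j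
    rw [Equiv.symm_apply_apply, ← mul_assoc, unit_sq, one_mul]

theorem act_add (σ : Equiv.Perm (Fin d)) (ε : Fin d → ℤˣ) (x y : Site d) :
    act σ ε (x + y) = act σ ε x + act σ ε y := by
  funext i
  show (ε i : ℤ) * (x (σ i) + y (σ i)) = (ε i : ℤ) * x (σ i) + (ε i : ℤ) * y (σ i)
  ring

theorem act_sub (σ : Equiv.Perm (Fin d)) (ε : Fin d → ℤˣ) (x y : Site d) :
    act σ ε (x - y) = act σ ε x - act σ ε y := by
  funext i
  show (ε i : ℤ) * (x (σ i) - y (σ i)) = (ε i : ℤ) * x (σ i) - (ε i : ℤ) * y (σ i)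
  ring

theorem act_single (σ : Equiv.Perm (Fin d)) (ε : Fin d → ℤˣ) (i : Fin d) :
    act σ ε (Pi.single i 1) = Pi.single (σ.symm i) ((ε (σ.symm i) : ℤ)) := by
  funext j
  show (ε j : ℤ) * (Pi.single i (1 : ℤ) : Site d) (σ j) = _
  by_cases h : j = σ.symm i
  · subst h
    rw [Equiv.apply_symm_apply, Pi.single_eq_same, Pi.single_eq_same, mul_one]
  · rw [Pi.single_eq_of_ne h, Pi.single_eq_of_ne, mul_zero]
    intro h2
    apply h
    rw [← h2, Equiv.symm_apply_apply]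

theorem aut_act (σ : Equiv.Perm (Fin d)) (ε : Fin d → ℤˣ) : Aut (act σ ε) := by
  intro ψ x
  have h1 : ∀ i : Fin d, ψ (act σ ε (x + Pi.single i 1)) + ψ (act σ ε (x - Pi.single i 1)) =
      (fun j : Fin d => ψ (act σ ε x + Pi.single j 1) + ψ (act σ ε x - Pi.single j 1)) (σ.symm i) := by
    intro i
    rw [act_add, act_sub, act_single]
    rcases Int.units_eq_one_or (ε (σ.symm i)) with h | h
    · rw [h, Units.val_one]
    · have e : (Pi.single (σ.symm i) ((-1 : ℤˣ) : ℤ) : Site d) = -Pi.single (σ.symm i) 1 := by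
        rw [← Pi.single_neg]
        rfl
      rw [h, e, ← sub_eq_add_neg, sub_neg_eq_add, add_comm]
  simp_rw [h1]
  exact Equiv.sum_comp σ.symm (fun j : Fin d => ψ (act σ ε x + Pi.single j 1) +
    ψ (act σ ε x - Pi.single j 1))

theorem aut_actE (σ : Equiv.Perm (Fin d)) (ε : Fin d → ℤˣ) : Aut ((actE σ ε).symm) :=
  aut_act σ.symm _

theorem card_sp : Fintype.card (Equiv.Perm (Fin d) × (Fin d → ℤˣ)) = 2 ^ d * d.factorial := by
  rw [Fintype.card_prod, Fintype.card_perm, Fintype.card_fin, Fintype.card_fun, Fintype.card_fin,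
    Fintype.card_units_int, mul_comm]

/-! ### half-spaces -/

/-- indicator function of a half-space -/
noncomputable def hs (n : Fin d → ℝ) (a : ℝ) (x : Site d) : ℂ :=
  Set.indicator {x : Site d | a < ∑ i, n i * (x i : ℝ)} (fun _ => 1) x

theorem hs_pos {n : Fin d → ℝ} {a : ℝ} {x : Site d} (h : a < ∑ i, n i * (x i : ℝ)) :
    hs n a x = 1 := Set.indicator_of_mem (show x ∈ {x : Site d | a < ∑ i, n i * (x i : ℝ)} from h) _

theorem hs_neg {n : Fin d → ℝ} {a : ℝ} {x : Site d} (h : ¬ a < ∑ i, n i * (x i : ℝ)) :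
    hs n a x = 0 :=
  Set.indicator_of_notMem (show x ∉ {x : Site d | a < ∑ i, n i * (x i : ℝ)} from h) _

theorem ind_bd (A : Set (Site d)) (x : Site d) : ‖A.indicator (fun _ => (1 : ℂ)) x‖ ≤ 1 := by
  by_cases h : x ∈ A
  · rw [Set.indicator_of_mem h, norm_one]
  · rw [Set.indicator_of_notMem h, norm_zero]
    exact zero_le_one

/-- zero off finitely many slabs -/
theorem thin_of_zero {h : Site d → ℂ} (L : List ((Fin d → ℝ) × ℝ × ℝ)) (hL : ∀ p ∈ L, p.1 ≠ 0)
    (hz : ∀ x, (∀ p ∈ L, x ∉ slab p.1 p.2.1 p.2.2) → h x = 0) : Thin h := fun ε hε =>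
  ⟨L, hL, fun x hx => by rw [hz x hx, norm_zero]; exact hε.le⟩

theorem hs_slow {n : Fin d → ℝ} (hn : n ≠ 0) (a : ℝ) (b : Site d) :
    Thin fun x => hs n a (x + b) - hs n a x := by
  refine thin_of_zero [(n, a, |∑ i, n i * (b i : ℝ)|)] (by simpa using hn) fun x hx => ?_
  have h1 : ¬ |∑ i, n i * (x i : ℝ) - a| ≤ |∑ i, n i * (b i : ℝ)| :=
    hx (n, a, |∑ i, n i * (b i : ℝ)|) (by simp)
  push Not at h1
  have e : ∑ i, n i * (((x + b) i : ℤ) : ℝ) =
      ∑ i, n i * (x i : ℝ) + ∑ i, n i * (b i : ℝ) := by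
    rw [← Finset.sum_add_distrib]
    refine Finset.sum_congr rfl fun i _ => ?_
    rw [Pi.add_apply, Int.cast_add]
    ring
  set s := ∑ i, n i * (x i : ℝ)
  set t := ∑ i, n i * (b i : ℝ)
  have h2 := abs_lt.1 (show |t| < |s - a| from h1)
  by_cases h3 : a < s
  · have h4 : a < ∑ i, n i * (((x + b) i : ℤ) : ℝ) := by
      rw [e]
      have := h2.1
      rw [abs_of_pos (by linarith : 0 < s - a)] at this
      linarith
    rw [hs_pos h3, hs_pos h4, sub_self]
  · have h4 : ¬ a < ∑ i, n i * (((x + b) i : ℤ) : ℝ) := by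
      rw [e]
      push Not at h3 ⊢
      have := h2.2
      rw [abs_of_nonpos (by linarith : s - a ≤ 0)] at this
      linarith
    rw [hs_neg h3, hs_neg h4, sub_self]

theorem sum_act (n : Fin d → ℝ) (σ : Equiv.Perm (Fin d)) (ε : Fin d → ℤˣ) (x : Site d) :
    ∑ i, n i * ((act σ ε x i : ℤ) : ℝ) = ∑ j, (n (σ.symm j) * ((ε (σ.symm j) : ℤ) : ℝ)) * (x j : ℝ) := by
  rw [← Equiv.sum_comp σ (fun j => (n (σ.symm j) * ((ε (σ.symm j) : ℤ) : ℝ)) * (x j : ℝ))]
  refine Finset.sum_congr rfl fun i _ => ?_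
  rw [Equiv.symm_apply_apply]
  show n i * (((ε i : ℤ) * x (σ i) : ℤ) : ℝ) = _
  rw [Int.cast_mul]
  ring

theorem act_normal {n : Fin d → ℝ} (hn : n ≠ 0) (σ : Equiv.Perm (Fin d)) (ε : Fin d → ℤˣ) :
    (fun j => n (σ.symm j) * ((ε (σ.symm j) : ℤ) : ℝ)) ≠ 0 := by
  intro h
  apply hn
  funext i
  have h1 := congrFun h (σ i)
  simp only [Equiv.symm_apply_apply, Pi.zero_apply] at h1
  rcases mul_eq_zero.1 h1 with h2 | h2
  · exact h2
  · exfalso
    have h3 : (ε i : ℤ) = 0 := by exact_mod_cast h2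
    have h4 := unit_sq (ε i)
    rw [h3] at h4
    norm_num at h4

theorem act_neg (σ : Equiv.Perm (Fin d)) (ε : Fin d → ℤˣ) (x : Site d) :
    act σ (-ε) x = -act σ ε x := by
  funext i
  show ((-(ε i) : ℤˣ) : ℤ) * x (σ i) = -((ε i : ℤ) * x (σ i))
  rw [Units.val_neg]
  ring

/-- the half-space has isotropic mean `1/2` -/
theorem hs_iso {n : Fin d → ℝ} (hn : n ≠ 0) (a : ℝ) :
    Thin fun x => ∑ σ : Equiv.Perm (Fin d), ∑ ε : Fin d → ℤˣ, (hs n a (act σ ε x) - 1 / 2) := by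
  have h1 : ∀ (σ : Equiv.Perm (Fin d)) (ε : Fin d → ℤˣ),
      Thin fun x => (1 / 2 : ℂ) * (hs n a (act σ ε x) + hs n a (act σ (-ε) x) - 1) := by
    intro σ ε
    refine Thin.smul (thin_of_zero [((fun j => n (σ.symm j) * ((ε (σ.symm j) : ℤ) : ℝ)), 0, |a|)]
      (by simpa using act_normal hn σ ε) fun x hx => ?_) _
    have h1 : ¬ |∑ j, (n (σ.symm j) * ((ε (σ.symm j) : ℤ) : ℝ)) * (x j : ℝ) - 0| ≤ |a| :=
      hx ((fun j => n (σ.symm j) * ((ε (σ.symm j) : ℤ) : ℝ)), 0, |a|) (by simp)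
    rw [← sum_act n σ ε x, sub_zero] at h1
    push Not at h1
    have e : ∑ i, n i * ((act σ (-ε) x i : ℤ) : ℝ) = -∑ i, n i * ((act σ ε x i : ℤ) : ℝ) := by
      rw [act_neg, ← Finset.sum_neg_distrib]
      refine Finset.sum_congr rfl fun i _ => ?_
      rw [Pi.neg_apply, Int.cast_neg]
      ring
    set s := ∑ i, n i * ((act σ ε x i : ℤ) : ℝ) with hs'
    have h2 := abs_lt.1 h1
    have h2a := neg_abs_le a
    have h2b := le_abs_self a
    by_cases h3 : 0 < s
    · have h4 : a < s := by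
        rw [abs_of_pos h3] at h1
        linarith
      have h5 : ¬ a < ∑ i, n i * ((act σ (-ε) x i : ℤ) : ℝ) := by
        rw [e, not_lt]
        rw [abs_of_pos h3] at h1
        linarith
      rw [hs_pos h4, hs_neg h5]
      ring
    · have h3' : s ≤ 0 := not_lt.1 h3
      have h4 : ¬ a < s := by
        rw [abs_of_nonpos h3'] at h1
        linarith
      have h5 : a < ∑ i, n i * ((act σ (-ε) x i : ℤ) : ℝ) := by
        rw [e]
        rw [abs_of_nonpos h3'] at h1
        linarith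
      rw [hs_neg h4, hs_pos h5]
      ring
  have h2 := Thin.sum Finset.univ _ fun σ => Thin.sum Finset.univ _ fun ε => h1 σ ε
  have e : (fun x : Site d => ∑ σ : Equiv.Perm (Fin d), ∑ ε : Fin d → ℤˣ,
      (hs n a (act σ ε x) - 1 / 2)) = fun x => ∑ σ : Equiv.Perm (Fin d), ∑ ε : Fin d → ℤˣ,
      (1 / 2 : ℂ) * (hs n a (act σ ε x) + hs n a (act σ (-ε) x) - 1) := by
    funext x
    refine Finset.sum_congr rfl fun σ _ => ?_
    have h3 : ∑ ε : Fin d → ℤˣ, hs n a (act σ (-ε) x) = ∑ ε : Fin d → ℤˣ, hs n a (act σ ε x) :=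
      Equiv.sum_comp (Equiv.neg (Fin d → ℤˣ)) fun ε => hs n a (act σ ε x)
    have h4 : ∀ ε : Fin d → ℤˣ, (1 / 2 : ℂ) * (hs n a (act σ ε x) + hs n a (act σ (-ε) x) - 1) =
        (1 / 2 : ℂ) * hs n a (act σ ε x) + (1 / 2 : ℂ) * hs n a (act σ (-ε) x) - 1 / 2 :=
      fun ε => by ring
    simp_rw [h4, Finset.sum_sub_distrib, Finset.sum_add_distrib, ← Finset.mul_sum]
    rw [h3]
    ring
  rw [e]
  exact h2

/-! ### chambers -/

/-- the chamber `0 < x_0 < x_1 < ... < x_{d-1}` -/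
def Ch (d : ℕ) : Set (Site d) := {x | (∀ i, 0 < x i) ∧ StrictMono x}

/-- indicator function of the chamber -/
noncomputable def ch (x : Site d) : ℂ := (Ch d).indicator (fun _ => 1) x

/-- the slab `|x_i| ≤ R` -/
def s1 (R : ℝ) (i : Fin d) : (Fin d → ℝ) × ℝ × ℝ := (Pi.single i 1, 0, R)
/-- the slab `|x_i + e x_j| ≤ R` -/
def s2 (R : ℝ) (e : ℝ) (p : Fin d × Fin d) : (Fin d → ℝ) × ℝ × ℝ :=
  (Pi.single p.1 1 + e • Pi.single p.2 1, 0, R)

theorem s1_ne (R : ℝ) (i : Fin d) : (s1 R i).1 ≠ 0 := by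
  intro h
  have := congrFun h i
  simp [s1] at this

theorem s2_ne (R : ℝ) (e : ℝ) (p : Fin d × Fin d) (hp : p.1 ≠ p.2) : (s2 R e p).1 ≠ 0 := by
  intro h
  have := congrFun h p.1
  simp [s2, hp] at this

theorem s1_mem (R : ℝ) (i : Fin d) (x : Site d) :
    x ∈ slab (s1 R i).1 (s1 R i).2.1 (s1 R i).2.2 ↔ |(x i : ℝ)| ≤ R := by
  show |∑ j, (Pi.single i (1 : ℝ) : Fin d → ℝ) j * (x j : ℝ) - 0| ≤ R ↔ _
  have : ∑ j, (Pi.single i (1 : ℝ) : Fin d → ℝ) j * (x j : ℝ) = x i := by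
    rw [Finset.sum_eq_single i]
    · rw [Pi.single_eq_same, one_mul]
    · intro j _ hj
      rw [Pi.single_eq_of_ne hj, zero_mul]
    · intro h
      exact absurd (Finset.mem_univ i) h
  rw [this, sub_zero]

theorem s2_mem (R : ℝ) (e : ℝ) (p : Fin d × Fin d) (x : Site d) :
    x ∈ slab (s2 R e p).1 (s2 R e p).2.1 (s2 R e p).2.2 ↔
      |(x p.1 : ℝ) + e * (x p.2 : ℝ)| ≤ R := by
  show |∑ j, ((Pi.single p.1 (1 : ℝ) : Fin d → ℝ) + e • (Pi.single p.2 (1 : ℝ) : Fin d → ℝ)) j *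
    (x j : ℝ) - 0| ≤ R ↔ _
  have h : ∀ i : Fin d, ∑ j, (Pi.single i (1 : ℝ) : Fin d → ℝ) j * (x j : ℝ) = x i := by
    intro i
    rw [Finset.sum_eq_single i]
    · rw [Pi.single_eq_same, one_mul]
    · intro j _ hj
      rw [Pi.single_eq_of_ne hj, zero_mul]
    · intro h
      exact absurd (Finset.mem_univ i) h
  have : ∑ j, ((Pi.single p.1 (1 : ℝ) : Fin d → ℝ) + e • (Pi.single p.2 (1 : ℝ) : Fin d → ℝ)) j *
    (x j : ℝ) = (x p.1 : ℝ) + e * (x p.2 : ℝ) := by
    simp only [Pi.add_apply, Pi.smul_apply, smul_eq_mul, add_mul, Finset.sum_add_distrib, mul_assoc,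
      ← Finset.mul_sum]
    rw [h, h]
  rw [this, sub_zero]

open Classical in
/-- the walls, thickened by `R` -/
noncomputable def walls (d : ℕ) (R : ℝ) : List ((Fin d → ℝ) × ℝ × ℝ) :=
  (Finset.univ : Finset (Fin d)).toList.map (s1 R) ++
  (((Finset.univ : Finset (Fin d × Fin d)).filter fun p => p.1 ≠ p.2).toList.map (s2 R (-1)) ++
  ((Finset.univ : Finset (Fin d × Fin d)).filter fun p => p.1 ≠ p.2).toList.map (s2 R 1))

theorem walls_ne (R : ℝ) : ∀ p ∈ walls d R, p.1 ≠ 0 := by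
  intro p hp
  unfold walls at hp
  rcases List.mem_append.1 hp with h | h
  · obtain ⟨i, _, rfl⟩ := List.mem_map.1 h
    exact s1_ne R i
  · rcases List.mem_append.1 h with h | h
    · obtain ⟨q, hq, rfl⟩ := List.mem_map.1 h
      exact s2_ne R _ q (Finset.mem_filter.1 (Finset.mem_toList.1 hq)).2
    · obtain ⟨q, hq, rfl⟩ := List.mem_map.1 h
      exact s2_ne R _ q (Finset.mem_filter.1 (Finset.mem_toList.1 hq)).2

theorem off_walls {R : ℝ} {x : Site d}
    (hx : ∀ p ∈ walls d R, x ∉ slab p.1 p.2.1 p.2.2) :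
    (∀ i, R < |(x i : ℝ)|) ∧ (∀ i j, i ≠ j → R < |(x i : ℝ) - x j|) ∧
      ∀ i j, i ≠ j → R < |(x i : ℝ) + x j| := by
  refine ⟨fun i => ?_, fun i j hij => ?_, fun i j hij => ?_⟩
  · have := hx (s1 R i) (List.mem_append.2 (Or.inl (List.mem_map.2
      ⟨i, Finset.mem_toList.2 (Finset.mem_univ i), rfl⟩)))
    rw [s1_mem] at this
    exact not_le.1 this
  · have := hx (s2 R (-1) (i, j)) (List.mem_append.2 (Or.inr (List.mem_append.2 (Or.inl
      (List.mem_map.2 ⟨(i, j), Finset.mem_toList.2 (Finset.mem_filter.2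
        ⟨Finset.mem_univ _, hij⟩), rfl⟩)))))
    rw [s2_mem, neg_one_mul, ← sub_eq_add_neg] at this
    exact not_le.1 this
  · have := hx (s2 R 1 (i, j)) (List.mem_append.2 (Or.inr (List.mem_append.2 (Or.inr
      (List.mem_map.2 ⟨(i, j), Finset.mem_toList.2 (Finset.mem_filter.2
        ⟨Finset.mem_univ _, hij⟩), rfl⟩)))))
    rw [s2_mem, one_mul] at this
    exact not_le.1 this

theorem ch_slow (b : Site d) : Thin fun x : Site d => ch (x + b) - ch x := by
  set R : ℝ := 2 * ∑ i, |(b i : ℝ)| with hR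
  have hb : ∀ i, |(b i : ℝ)| ≤ R / 2 := by
    intro i
    rw [hR, mul_div_cancel_left₀ _ (by norm_num : (2 : ℝ) ≠ 0)]
    exact Finset.single_le_sum (f := fun i => |(b i : ℝ)|) (fun j _ => abs_nonneg _)
      (Finset.mem_univ i)
  refine thin_of_zero (walls d R) (walls_ne R) fun x hx => ?_
  obtain ⟨h1, h2, _⟩ := off_walls hx
  have hpos : ∀ i, (0 < x i ↔ 0 < (x + b) i) := by
    intro i
    have h3 := h1 i
    have h4 := abs_le.1 (hb i)
    have h0 : 0 ≤ R := by
      have := abs_nonneg (b i : ℝ)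
      linarith [hb i]
    have e : (((x + b) i : ℤ) : ℝ) = (x i : ℝ) + b i := by
      rw [Pi.add_apply, Int.cast_add]
    constructor
    · intro h5
      have h6 : (0 : ℝ) < x i := by exact_mod_cast h5
      rw [abs_of_pos h6] at h3
      have : (0 : ℝ) < (((x + b) i : ℤ) : ℝ) := by
        rw [e]
        linarith
      exact_mod_cast this
    · intro h5
      have h6 : (0 : ℝ) < (((x + b) i : ℤ) : ℝ) := by exact_mod_cast h5
      rw [e] at h6
      by_contra h7
      have h8 : (x i : ℝ) ≤ 0 := by exact_mod_cast not_lt.1 h7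
      rw [abs_of_nonpos h8] at h3
      linarith
  have hlt : ∀ i j, i ≠ j → (x i < x j ↔ (x + b) i < (x + b) j) := by
    intro i j hij
    have h3 := h2 i j hij
    have h4 := abs_le.1 (hb i)
    have h5 := abs_le.1 (hb j)
    have e : ∀ i, (((x + b) i : ℤ) : ℝ) = (x i : ℝ) + b i := fun i => by
      rw [Pi.add_apply, Int.cast_add]
    constructor
    · intro h6
      have h7 : (x i : ℝ) < x j := by exact_mod_cast h6
      rw [abs_of_neg (by linarith : (x i : ℝ) - x j < 0)] at h3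
      have : (((x + b) i : ℤ) : ℝ) < (((x + b) j : ℤ) : ℝ) := by
        rw [e, e]
        linarith
      exact_mod_cast this
    · intro h6
      have h7 : (((x + b) i : ℤ) : ℝ) < (((x + b) j : ℤ) : ℝ) := by exact_mod_cast h6
      rw [e, e] at h7
      by_contra h8
      have h9 : (x j : ℝ) ≤ x i := by exact_mod_cast not_lt.1 h8
      rw [abs_of_nonneg (by linarith : 0 ≤ (x i : ℝ) - x j)] at h3
      linarith
  have hiff : x ∈ Ch d ↔ x + b ∈ Ch d := by
    constructor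
    · rintro ⟨a1, a2⟩
      exact ⟨fun i => (hpos i).1 (a1 i), fun i j hij => (hlt i j hij.ne).1 (a2 hij)⟩
    · rintro ⟨a1, a2⟩
      exact ⟨fun i => (hpos i).2 (a1 i), fun i j hij => (hlt i j hij.ne).2 (a2 hij)⟩
  unfold ch
  by_cases h : x ∈ Ch d
  · rw [Set.indicator_of_mem h, Set.indicator_of_mem (hiff.1 h), sub_self]
  · rw [Set.indicator_of_notMem h, Set.indicator_of_notMem fun h' => h (hiff.2 h'), sub_self]

/-- off the walls exactly one signed permutation maps `x` to the chamber -/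
theorem ch_unique {x : Site d} (h0 : ∀ i, x i ≠ 0) (h1 : Function.Injective fun i => |x i|) :
    ∃! p : Equiv.Perm (Fin d) × (Fin d → ℤˣ), act p.1 p.2 x ∈ Ch d := by
  classical
  set y : Fin d → ℤ := fun i => |x i| with hy
  set σ := Tuple.sort y with hσ
  have hm : StrictMono (y ∘ σ) :=
    (Tuple.monotone_sort y).strictMono_of_injective (h1.comp σ.injective)
  -- the signs
  have hsg : ∀ i, ∃ e : ℤˣ, (e : ℤ) * x i = |x i| := by
    intro i
    rcases le_total 0 (x i) with h | h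
    · exact ⟨1, by rw [Units.val_one, one_mul, abs_of_nonneg h]⟩
    · exact ⟨-1, by rw [Units.val_neg, Units.val_one, neg_one_mul, abs_of_nonpos h]⟩
  choose sg hsg using hsg
  refine ⟨(σ, fun i => sg (σ i)), ⟨fun i => ?_, fun i j hij => ?_⟩, ?_⟩
  · show 0 < (sg (σ i) : ℤ) * x (σ i)
    rw [hsg]
    exact abs_pos.2 (h0 _)
  · show (sg (σ i) : ℤ) * x (σ i) < (sg (σ j) : ℤ) * x (σ j)
    rw [hsg, hsg]
    exact hm hij
  · rintro ⟨σ', ε'⟩ ⟨h2, h3⟩
    have h4 : ∀ i, (ε' i : ℤ) * x (σ' i) = |x (σ' i)| := by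
      intro i
      have h5 : 0 < (ε' i : ℤ) * x (σ' i) := h2 i
      rcases Int.units_eq_one_or (ε' i) with h | h
      · rw [h, Units.val_one, one_mul] at h5 ⊢
        rw [abs_of_pos h5]
      · rw [h, Units.val_neg, Units.val_one, neg_one_mul] at h5 ⊢
        rw [abs_of_neg (by linarith)]
    have h5 : StrictMono (y ∘ σ') := by
      intro i j hij
      have h6 : (ε' i : ℤ) * x (σ' i) < (ε' j : ℤ) * x (σ' j) := h3 hij
      rw [h4, h4] at h6
      exact h6
    have h6 : y ∘ σ' = y ∘ σ := by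
      refine (h5.range_inj hm).1 ?_
      rw [Set.range_comp, Set.range_comp, σ'.surjective.range_eq, σ.surjective.range_eq]
    have h7 : σ' = σ := by
      refine Equiv.ext fun i => h1 ?_
      exact congrFun h6 i
    refine Prod.ext h7 (funext fun i => ?_)
    have h8 := h4 i
    rw [← hsg] at h8
    have h9 : (ε' i : ℤ) = (sg (σ' i) : ℤ) := mul_right_cancel₀ (h0 _) h8
    rw [h7] at h9
    exact Units.ext h9

theorem ch_iso : Thin fun x : Site d =>
    (∑ σ : Equiv.Perm (Fin d), ∑ ε : Fin d → ℤˣ, ch (act σ ε x)) - 1 := by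
  refine thin_of_zero (walls d 0) (walls_ne 0) fun x hx => ?_
  obtain ⟨h1, h2, h3⟩ := off_walls hx
  have h0 : ∀ i, x i ≠ 0 := by
    intro i hi
    have := h1 i
    rw [hi] at this
    simp at this
  have hinj : Function.Injective fun i => |x i| := by
    intro i j hij
    by_contra hne
    rcases abs_eq_abs.1 hij with h | h
    · have := h2 i j hne
      rw [h] at this
      simp at this
    · have := h3 i j hne
      rw [h] at this
      simp at this
  obtain ⟨p, hp, hu⟩ := ch_unique h0 hinj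
  have h4 : (∑ σ : Equiv.Perm (Fin d), ∑ ε : Fin d → ℤˣ, ch (act σ ε x)) = 1 := by
    rw [← Finset.sum_product']
    rw [Finset.sum_eq_single p]
    · exact Set.indicator_of_mem hp _
    · intro q _ hq
      refine Set.indicator_of_notMem (fun h => hq (hu q h)) _
    · intro h
      exact absurd (Finset.mem_univ p) h
  rw [h4, sub_self]

end Pool.Agent.H39.EQ
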